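import Mathlib

/-! Planar lemma (after Haase, Nill, Paffenholz, Santos), used for the level one step of Nill's conjecture in dimension 3. -/

set_option autoImplicit false

namespace Pool.Agent.Helper90.NE

/-- integer points as real points -/
def toR (z : ℤ × ℤ) : ℝ × ℝ := ((z.1 : ℝ), (z.2 : ℝ))

/-- affine functions -/
def ev (w : ℝ × ℝ × ℝ) (x : ℝ × ℝ) : ℝ := w.1 * x.1 + w.2.1 * x.2 + w.2.2

/-- oriented area -/
def DD (a b c : ℤ × ℤ) : ℤ := (b.1 - a.1) * (c.2 - a.2) - (b.2 - a.2) * (c.1 - a.1)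

/-- the polygon -/
def hull (T : Finset (ℤ × ℤ)) : Set (ℝ × ℝ) := convexHull ℝ (toR '' (T : Set (ℤ × ℤ)))

section
variable {T : Finset (ℤ × ℤ)}

theorem ev_comb (w : ℝ × ℝ × ℝ) (x y : ℝ × ℝ) (s : ℝ) :
    ev w ((1 - s) • x + s • y) = (1 - s) * ev w x + s * ev w y := by
  simp only [ev, Prod.fst_add, Prod.snd_add, Prod.smul_fst, Prod.smul_snd, smul_eq_mul]
  ring

theorem convex_ev_pos (w : ℝ × ℝ × ℝ) : Convex ℝ {x : ℝ × ℝ | 0 < ev w x} := by
  intro x hx y hy a b ha hb hab
  have hx' : 0 < ev w x := hx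
  have hy' : 0 < ev w y := hy
  have h : ev w (a • x + b • y) = a * ev w x + b * ev w y := by
    have ha' : a = 1 - b := by linarith
    subst ha'
    exact ev_comb w x y b
  show 0 < ev w (a • x + b • y)
  rw [h]
  rcases ha.eq_or_lt with h0 | h0
  · have : b = 1 := by linarith
    rw [← h0, this]
    linarith
  · have := mul_pos h0 hx'
    have := mul_nonneg hb hy'.le
    linarith

theorem ev_pos_hull {w : ℝ × ℝ × ℝ} (h : ∀ t ∈ T, 0 < ev w (toR t)) {x : ℝ × ℝ}
    (hx : x ∈ hull T) : 0 < ev w x := by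
  have : hull T ⊆ {x : ℝ × ℝ | 0 < ev w x} := by
    refine convexHull_min ?_ (convex_ev_pos w)
    rintro _ ⟨t, ht, rfl⟩
    exact h t (by simpa using ht)
  exact this hx

theorem ev_nonneg_hull {w : ℝ × ℝ × ℝ} (h : ∀ t ∈ T, 0 ≤ ev w (toR t)) {x : ℝ × ℝ}
    (hx : x ∈ hull T) : 0 ≤ ev w x := by
  by_contra hneg
  push Not at hneg
  have h2 := ev_pos_hull (w := (w.1, w.2.1, w.2.2 - ev w x / 2)) (T := T) (fun t ht => by
    have := h t ht
    simp only [ev] at this hneg ⊢
    linarith) hx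
  simp only [ev] at h2 hneg
  linarith

theorem mem_hull {t : ℤ × ℤ} (ht : t ∈ T) : toR t ∈ hull T :=
  subset_convexHull ℝ _ ⟨t, by simpa using ht, rfl⟩

theorem compact_hull (T : Finset (ℤ × ℤ)) : IsCompact (hull T) :=
  (T.finite_toSet.image toR).isCompact_convexHull (𝕜 := ℝ)

theorem sep {C : Set (ℝ × ℝ)} (hC : Convex ℝ C) (hCc : IsCompact C)
    (hd : ∀ x ∈ C, x ∉ hull T) :
    ∃ w, (∀ x ∈ C, ev w x < 0) ∧ ∀ t ∈ T, 0 < ev w (toR t) := by
  obtain ⟨f, u, v, h1, h2, h3⟩ := geometric_hahn_banach_compact_closed hC hCc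
    (convex_convexHull ℝ (toR '' (T : Set (ℤ × ℤ)))) (compact_hull T).isClosed
    (Set.disjoint_left.mpr hd)
  have hf : ∀ x : ℝ × ℝ, f x = f (1, 0) * x.1 + f (0, 1) * x.2 := by
    intro x
    have hx : x = x.1 • ((1, 0) : ℝ × ℝ) + x.2 • ((0, 1) : ℝ × ℝ) := by
      ext <;> simp
    conv_lhs => rw [hx]
    rw [map_add, map_smul, map_smul, smul_eq_mul, smul_eq_mul]
    ring
  refine ⟨(f (1, 0), f (0, 1), -v), fun x hx => ?_, fun t ht => ?_⟩
  · have := h1 x hx
    rw [hf] at this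
    simp only [ev]
    linarith
  · have := h3 (toR t) (mem_hull ht)
    rw [hf] at this
    simp only [ev]
    linarith

/-- a segment meets the polygon -/
def Meet (T : Finset (ℤ × ℤ)) (p q : ℤ × ℤ) : Prop :=
  ∃ s : ℝ, 0 ≤ s ∧ s ≤ 1 ∧ (1 - s) • toR p + s • toR q ∈ hull T

theorem Meet.symm {p q : ℤ × ℤ} (h : Meet T p q) : Meet T q p := by
  obtain ⟨s, h0, h1, h2⟩ := h
  refine ⟨1 - s, by linarith, by linarith, ?_⟩
  rw [sub_sub_cancel, add_comm]
  exact h2

theorem not_meet {p q : ℤ × ℤ} (h : ¬ Meet T p q) :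
    ∃ w, ev w (toR p) < 0 ∧ ev w (toR q) < 0 ∧ ∀ t ∈ T, 0 < ev w (toR t) := by
  obtain ⟨w, h1, h2⟩ := sep (T := T) (C := segment ℝ (toR p) (toR q)) (convex_segment _ _)
    (by
      rw [← convexHull_pair]
      exact (Set.toFinite _).isCompact_convexHull (𝕜 := ℝ)) (by
      rintro x ⟨a, b, ha, hb, hab, rfl⟩ hx
      refine h ⟨b, hb, by linarith, ?_⟩
      have : a = 1 - b := by linarith
      rw [← this]
      exact hx)
  exact ⟨w, h1 _ (left_mem_segment ℝ _ _), h1 _ (right_mem_segment ℝ _ _), h2⟩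

theorem Meet.pos {p q : ℤ × ℤ} (h : Meet T p q) (hp : toR p ∉ hull T) (hq : toR q ∉ hull T) :
    ∃ s : ℝ, 0 < s ∧ s < 1 ∧ (1 - s) • toR p + s • toR q ∈ hull T := by
  obtain ⟨s, h0, h1, h2⟩ := h
  refine ⟨s, lt_of_le_of_ne h0 ?_, lt_of_le_of_ne h1 ?_, h2⟩
  · rintro rfl
    apply hp
    simpa using h2
  · rintro rfl
    apply hq
    simpa using h2

theorem bary (p q r z : ℤ × ℤ) (w : ℝ × ℝ × ℝ) :
    (DD p q r : ℝ) * ev w (toR z) =
      DD z q r * ev w (toR p) + DD p z r * ev w (toR q) + DD p q z * ev w (toR r) := by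
  simp only [DD, ev, toR]
  push_cast
  ring

theorem DD_sum (p q r z : ℤ × ℤ) : DD z q r + DD p z r + DD p q z = DD p q r := by
  simp only [DD]
  ring

theorem DD_rot (p q r : ℤ × ℤ) : DD q r p = DD p q r := by
  simp only [DD]
  ring

theorem DD_swap (p q r : ℤ × ℤ) : DD q p r = - DD p q r := by
  simp only [DD]
  ring

/-- there are vertices of the polygon on both sides of a segment crossing it -/
theorem beyond {p q : ℤ × ℤ} (hne : ∀ z, DD p q z = 0 →
      0 ≤ (q.1 - p.1) * (z.1 - p.1) + (q.2 - p.2) * (z.2 - p.2) →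
      (q.1 - p.1) * (z.1 - p.1) + (q.2 - p.2) * (z.2 - p.2) ≤ (q.1 - p.1) ^ 2 + (q.2 - p.2) ^ 2 →
      toR z ∉ hull T) (h : Meet T p q) : ∃ t ∈ T, DD p q t < 0 := by
  by_contra hcon
  push Not at hcon
  have hp : toR p ∉ hull T := hne p (by simp [DD]) (by simp) (by
    have := add_nonneg (sq_nonneg (q.1 - p.1)) (sq_nonneg (q.2 - p.2))
    simpa using this)
  have hq : toR q ∉ hull T := hne q (by simp only [DD]; ring)
    (by nlinarith [sq_nonneg (q.1 - p.1), sq_nonneg (q.2 - p.2)]) (by apply le_of_eq; ring)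
  obtain ⟨s, hs0, hs1, hs⟩ := h.pos hp hq
  have key : ∀ t ∈ T, 0 < DD p q t := by
    intro t ht
    refine lt_of_le_of_ne (hcon t ht) ?_
    intro h0
    -- the position of `t` on the line
    set g : ℤ := (q.1 - p.1) * (t.1 - p.1) + (q.2 - p.2) * (t.2 - p.2) with hg
    set G : ℤ := (q.1 - p.1) ^ 2 + (q.2 - p.2) ^ 2 with hG
    have hGg1 : G * (t.1 - p.1) = g * (q.1 - p.1) := by
      have : (q.1 - p.1) * (t.2 - p.2) - (q.2 - p.2) * (t.1 - p.1) = 0 := h0.symm
      rw [hG, hg]
      linear_combination (-(q.2 - p.2)) * this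
    have hGg2 : G * (t.2 - p.2) = g * (q.2 - p.2) := by
      have : (q.1 - p.1) * (t.2 - p.2) - (q.2 - p.2) * (t.1 - p.1) = 0 := h0.symm
      rw [hG, hg]
      linear_combination (q.1 - p.1) * this
    have hGpos : 0 < G := by
      rcases lt_or_eq_of_le (add_nonneg (sq_nonneg (q.1 - p.1)) (sq_nonneg (q.2 - p.2))) with h1 | h1
      · exact h1
      · exfalso
        have e1 : q.1 - p.1 = 0 := by nlinarith [sq_nonneg (q.1 - p.1), sq_nonneg (q.2 - p.2)]
        have e2 : q.2 - p.2 = 0 := by nlinarith [sq_nonneg (q.1 - p.1), sq_nonneg (q.2 - p.2)]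
        have : p = q := by
          ext <;> omega
        apply hp
        have h2 : (1 - s) • toR p + s • toR q = toR p := by
          rw [← this, ← add_smul]
          simp
        rw [← h2]
        exact hs
    have hGR : (0 : ℝ) < G := by exact_mod_cast hGpos
    have r1 : (G : ℝ) * (t.1 - p.1) = g * (q.1 - p.1) := by exact_mod_cast hGg1
    have r2 : (G : ℝ) * (t.2 - p.2) = g * (q.2 - p.2) := by exact_mod_cast hGg2
    have hconv := convex_convexHull ℝ (toR '' (T : Set (ℤ × ℤ)))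
    have htA : toR t ∈ hull T := mem_hull ht
    by_cases hg0 : g < 0
    · -- `p` lies between `t` and the crossing point
      apply hp
      have hgR : (g : ℝ) < 0 := by exact_mod_cast hg0
      -- p = a t + b y with y = p + s (q - p)
      have hden : 0 < s * G - g := by nlinarith
      have hmem := hconv htA hs (show 0 ≤ (s * G) / (s * G - g) from by positivity)
        (show 0 ≤ (-g : ℝ) / (s * G - g) from div_nonneg (by linarith) hden.le)
        (by field_simp; ring)
      have heq : ((s * G) / (s * G - g)) • toR t + ((-g : ℝ) / (s * G - g)) •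
          ((1 - s) • toR p + s • toR q) = toR p := by
        ext
        · simp only [toR, Prod.fst_add, Prod.smul_fst, smul_eq_mul]
          field_simp
          linear_combination s * r1
        · simp only [toR, Prod.snd_add, Prod.smul_snd, smul_eq_mul]
          field_simp
          linear_combination s * r2
      rw [← heq]
      exact hmem
    · push Not at hg0
      by_cases hg1 : G < g
      · apply hq
        have hgR : (G : ℝ) < g := by exact_mod_cast hg1
        have hden : 0 < g - s * G := by nlinarith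
        have hmem := hconv htA hs
          (show 0 ≤ ((1 - s) * G) / (g - s * G) from div_nonneg (by nlinarith) hden.le)
          (show 0 ≤ ((g : ℝ) - G) / (g - s * G) from div_nonneg (by linarith) hden.le)
          (by field_simp; ring)
        have heq : (((1 - s) * G) / (g - s * G)) • toR t + (((g : ℝ) - G) / (g - s * G)) •
            ((1 - s) • toR p + s • toR q) = toR q := by
          ext
          · simp only [toR, Prod.fst_add, Prod.smul_fst, smul_eq_mul]
            field_simp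
            linear_combination (1 - s) * r1
          · simp only [toR, Prod.snd_add, Prod.smul_snd, smul_eq_mul]
            field_simp
            linear_combination (1 - s) * r2
        rw [← heq]
        exact hmem
      · push Not at hg1
        exact hne t h0.symm hg0 hg1 htA
  -- the linear function is at least one on the polygon
  let w : ℝ × ℝ × ℝ := (-((q.2 - p.2 : ℤ) : ℝ), ((q.1 - p.1 : ℤ) : ℝ),
    ((q.2 - p.2 : ℤ) : ℝ) * p.1 - ((q.1 - p.1 : ℤ) : ℝ) * p.2)
  have hw : ∀ t : ℤ × ℤ, ev w (toR t) = DD p q t := by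
    intro t
    simp only [ev, w, toR, DD]
    push_cast
    ring
  have h1 := ev_pos_hull (w := w) (T := T) (fun t ht => by
    rw [hw]
    exact_mod_cast key t ht) hs
  rw [ev_comb, hw, hw] at h1
  have e1 : DD p q p = 0 := by simp [DD]
  have e2 : DD p q q = 0 := by simp only [DD]; ring
  rw [e1, e2] at h1
  simp at h1

/-- lattice points of a triangle of area at least two -/
theorem exists_inner {p q r : ℤ × ℤ} (h : 2 ≤ DD p q r) :
    ∃ z, 0 ≤ DD z q r ∧ 0 ≤ DD p z r ∧ 0 ≤ DD p q z ∧ DD z q r < DD p q r ∧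
      DD p z r < DD p q r ∧ DD p q z < DD p q r := by
  set N := DD p q r with hN
  -- a vector which is not in the sublattice
  obtain ⟨v, hv⟩ : ∃ v : ℤ × ℤ, ¬ (N ∣ v.1 * (r.2 - p.2) - v.2 * (r.1 - p.1) ∧
      N ∣ (q.1 - p.1) * v.2 - (q.2 - p.2) * v.1) := by
    by_contra hcon
    push Not at hcon
    obtain ⟨h1, h2⟩ := hcon (1, 0)
    obtain ⟨h3, h4⟩ := hcon (0, 1)
    simp only [one_mul, zero_mul, mul_one, mul_zero, sub_zero, zero_sub, dvd_neg] at h1 h2 h3 h4
    obtain ⟨a, ha⟩ := h1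
    obtain ⟨b, hb⟩ := h4
    obtain ⟨c, hc⟩ := h2
    obtain ⟨d, hd⟩ := h3
    have h5 : N = N * (N * (b * a - c * d)) := by
      have : N = (q.1 - p.1) * (r.2 - p.2) - (q.2 - p.2) * (r.1 - p.1) := hN
      rw [ha, hb, hc, hd] at this
      linear_combination this
    have h6 : N * (b * a - c * d) = 1 := by
      have h7 : N * (N * (b * a - c * d) - 1) = 0 := by linear_combination -h5
      rcases mul_eq_zero.mp h7 with h8 | h8
      · omega
      · omega
    have h7 : N ∣ 1 := ⟨_, h6.symm⟩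
    have := Int.le_of_dvd one_pos h7
    omega
  set X := v.1 * (r.2 - p.2) - v.2 * (r.1 - p.1) with hX
  set Y := (q.1 - p.1) * v.2 - (q.2 - p.2) * v.1 with hY
  have hNpos : 0 < N := by omega
  have hx0 := Int.emod_nonneg X hNpos.ne'
  have hx1 := Int.emod_lt_of_pos X hNpos
  have hy0 := Int.emod_nonneg Y hNpos.ne'
  have hy1 := Int.emod_lt_of_pos Y hNpos
  have hxy : ¬ (X % N = 0 ∧ Y % N = 0) := fun h => hv ⟨Int.dvd_of_emod_eq_zero h.1,
    Int.dvd_of_emod_eq_zero h.2⟩
  have hX2 : X % N = X - N * (X / N) := by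
    have := Int.emod_add_mul_ediv X N
    omega
  have hY2 : Y % N = Y - N * (Y / N) := by
    have := Int.emod_add_mul_ediv Y N
    omega
  have hN2 : N = (q.1 - p.1) * (r.2 - p.2) - (q.2 - p.2) * (r.1 - p.1) := hN
  -- reduced vector
  set v' : ℤ × ℤ := (v.1 - (X / N) * (q.1 - p.1) - (Y / N) * (r.1 - p.1),
    v.2 - (X / N) * (q.2 - p.2) - (Y / N) * (r.2 - p.2)) with hv'
  have e1 : v'.1 * (r.2 - p.2) - v'.2 * (r.1 - p.1) = X % N := by
    rw [hX2, hv', hX]
    simp only
    linear_combination (X / N) * hN2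
  have e2 : (q.1 - p.1) * v'.2 - (q.2 - p.2) * v'.1 = Y % N := by
    rw [hY2, hv', hY]
    simp only
    linear_combination (Y / N) * hN2
  by_cases hle : X % N + Y % N ≤ N
  · have f2 : DD p (p.1 + v'.1, p.2 + v'.2) r = X % N := by
      rw [← e1]
      simp only [DD]
      ring
    have f3 : DD p q (p.1 + v'.1, p.2 + v'.2) = Y % N := by
      rw [← e2]
      simp only [DD]
      ring
    have f1 : DD (p.1 + v'.1, p.2 + v'.2) q r = N - X % N - Y % N := by
      have := DD_sum p q r (p.1 + v'.1, p.2 + v'.2)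
      rw [f2, f3] at this
      omega
    refine ⟨(p.1 + v'.1, p.2 + v'.2), ?_, ?_, ?_, ?_, ?_, ?_⟩
    · rw [f1]; omega
    · rw [f2]; omega
    · rw [f3]; omega
    · rw [f1]
      by_contra hcon
      exact hxy ⟨by omega, by omega⟩
    · rw [f2]; omega
    · rw [f3]; omega
  · have f2 : DD p (q.1 + r.1 - p.1 - v'.1, q.2 + r.2 - p.2 - v'.2) r = N - X % N := by
      rw [← e1, hN2]
      simp only [DD]
      ring
    have f3 : DD p q (q.1 + r.1 - p.1 - v'.1, q.2 + r.2 - p.2 - v'.2) = N - Y % N := by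
      rw [← e2, hN2]
      simp only [DD]
      ring
    have f1 : DD (q.1 + r.1 - p.1 - v'.1, q.2 + r.2 - p.2 - v'.2) q r =
        X % N + Y % N - N := by
      have := DD_sum p q r (q.1 + r.1 - p.1 - v'.1, q.2 + r.2 - p.2 - v'.2)
      rw [f2, f3] at this
      omega
    refine ⟨(q.1 + r.1 - p.1 - v'.1, q.2 + r.2 - p.2 - v'.2), ?_, ?_, ?_, ?_, ?_, ?_⟩
    · rw [f1]; omega
    · rw [f2]; omega
    · rw [f3]; omega
    · rw [f1]; omega
    · rw [f2]; omega
    · rw [f3]; omega

theorem sep_pt {p : ℤ × ℤ} (hp : toR p ∉ hull T) :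
    ∃ w, ev w (toR p) < 0 ∧ ∀ t ∈ T, 0 < ev w (toR t) := by
  obtain ⟨w, h1, h2⟩ := sep (T := T) (C := {toR p}) (convex_singleton _) isCompact_singleton
    (by
      rintro x hx
      rw [Set.mem_singleton_iff.mp hx]
      exact hp)
  exact ⟨w, h1 _ rfl, h2⟩

theorem Meet.pos_of_neg {p q : ℤ × ℤ} (h : Meet T p q) {w : ℝ × ℝ × ℝ}
    (hw : ∀ t ∈ T, 0 < ev w (toR t)) (hp : ev w (toR p) < 0) : 0 < ev w (toR q) := by
  obtain ⟨s, h0, h1, h2⟩ := h
  have h3 := ev_pos_hull hw h2
  rw [ev_comb] at h3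
  have h4 : (1 - s) * ev w (toR p) ≤ 0 := mul_nonpos_of_nonneg_of_nonpos (by linarith) hp.le
  have h5 : 0 < s * ev w (toR q) := by linarith
  by_contra hcon
  push Not at hcon
  have := mul_nonneg h0 (neg_nonneg.mpr hcon)
  linarith

theorem baryc (p q r z : ℤ × ℤ) : DD p q r * z.1 = DD z q r * p.1 + DD p z r * q.1 + DD p q z * r.1 ∧
    DD p q r * z.2 = DD z q r * p.2 + DD p z r * q.2 + DD p q z * r.2 := by
  constructor <;>
  · simp only [DD]
    ring

theorem beyond_uni {p q r : ℤ × ℤ} (hN : DD p q r = 1) (h : Meet T q r) (hq : toR q ∉ hull T)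
    (hr : toR r ∉ hull T) : ∃ x ∈ T, DD x q r < 0 := by
  obtain ⟨t, ht, h1⟩ := beyond (T := T) (p := q) (q := r) (fun z hz h0 h1 => by
    have e1 : DD z q r = 0 := by rw [← DD_rot z q r]; exact hz
    have e2 := DD_sum p q r z
    obtain ⟨e3, e4⟩ := baryc p q r z
    set k := DD p q z with hk
    have e5 : DD p z r = 1 - k := by omega
    rw [hN, e1, e5] at e3 e4
    have f1 : z.1 - q.1 = k * (r.1 - q.1) := by linear_combination e3
    have f2 : z.2 - q.2 = k * (r.2 - q.2) := by linear_combination e4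
    rw [f1, f2] at h0 h1
    set G := (r.1 - q.1) ^ 2 + (r.2 - q.2) ^ 2 with hG
    have g0 : 0 ≤ k * G := by rw [hG]; linarith
    have g1 : k * G ≤ 1 * G := by rw [hG]; linarith
    have hG0 : 0 < G := by
      rcases lt_or_eq_of_le (add_nonneg (sq_nonneg (r.1 - q.1)) (sq_nonneg (r.2 - q.2))) with h3 | h3
      · exact h3
      · exfalso
        have e1 : r.1 - q.1 = 0 := by nlinarith [sq_nonneg (r.1 - q.1), sq_nonneg (r.2 - q.2)]
        have e2 : r.2 - q.2 = 0 := by nlinarith [sq_nonneg (r.1 - q.1), sq_nonneg (r.2 - q.2)]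
        have : DD p q r = (q.1 - p.1) * (r.2 - q.2) - (q.2 - p.2) * (r.1 - q.1) := by
          simp only [DD]; ring
        rw [e1, e2] at this
        omega
    have k0 : 0 ≤ k := nonneg_of_mul_nonneg_left g0 hG0
    have k1 : k ≤ 1 := le_of_mul_le_mul_right g1 hG0
    have : k = 0 ∨ k = 1 := by omega
    rcases this with h4 | h4
    · rw [h4] at f1 f2
      have : z = q := by ext <;> omega
      rw [this]; exact hq
    · rw [h4] at f1 f2
      have : z = r := by ext <;> omega
      rw [this]; exact hr) h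
  refine ⟨t, ht, ?_⟩
  rw [← DD_rot t q r]
  exact h1

/-- half of the proof of the next theorem -/
theorem uni_aux {p q r : ℤ × ℤ} (hN : DD p q r = 1) (hpq : Meet T p q) (hqr : Meet T q r)
    (hpr : Meet T p r) (hq : toR q ∉ hull T) (hr : toR r ∉ hull T)
    {w : ℝ × ℝ × ℝ} (hw : ∀ t ∈ T, 0 < ev w (toR t)) (hwr : ev w (toR r) < 0) :
    ev w (toR p) < ev w (toR q) := by
  obtain ⟨x, hx, h1⟩ := beyond_uni hN hqr hq hr
  obtain ⟨v, hvq, hv⟩ := sep_pt hq
  have wp := hpr.symm.pos_of_neg hw hwr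
  have wq := hqr.symm.pos_of_neg hw hwr
  have vp := hpq.symm.pos_of_neg hv hvq
  have vr := hqr.pos_of_neg hv hvq
  have b1 := bary p q r x w
  have b2 := bary p q r x v
  have hs := DD_sum p q r x
  rw [hN] at b1 b2 hs
  have wx := hw x hx
  have vx := hv x hx
  set l1 := DD x q r
  set l2 := DD p x r
  set l3 := DD p q x
  push_cast at b1 b2
  have hl1 : (l1 : ℝ) ≤ -1 := by
    have : l1 ≤ -1 := by omega
    exact_mod_cast this
  have hl2 : 1 ≤ l2 := by
    by_contra hcon
    have i1 : (l2 : ℝ) ≤ 0 := by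
      have : l2 ≤ 0 := by omega
      exact_mod_cast this
    have i2 : (0 : ℝ) ≤ l3 := by
      have : 0 ≤ l3 := by omega
      exact_mod_cast this
    nlinarith [mul_nonneg i2 (neg_pos.mpr hwr).le, mul_nonneg (neg_nonneg.mpr i1) wq.le,
      mul_nonneg (by linarith : (0 : ℝ) ≤ - l1) wp.le]
  have hl3 : 1 ≤ l3 := by
    by_contra hcon
    have i1 : (l3 : ℝ) ≤ 0 := by
      have : l3 ≤ 0 := by omega
      exact_mod_cast this
    have i2 : (0 : ℝ) ≤ l2 := by exact_mod_cast (by omega : 0 ≤ l2)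
    nlinarith [mul_nonneg i2 (neg_pos.mpr hvq).le, mul_nonneg (neg_nonneg.mpr i1) vr.le,
      mul_nonneg (by linarith : (0 : ℝ) ≤ - l1) vp.le]
  have i2 : (l2 : ℝ) ≤ - l1 := by
    have : l2 ≤ - l1 := by omega
    exact_mod_cast this
  have i3 : (1 : ℝ) ≤ l3 := by exact_mod_cast hl3
  by_contra hcon
  push Not at hcon
  nlinarith [mul_nonneg (by linarith : (0 : ℝ) ≤ - l1) (sub_nonneg.mpr hcon),
    mul_nonneg (by linarith : (0 : ℝ) ≤ - l1 - l2) wq.le, mul_pos (by linarith : (0 : ℝ) < l3)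
    (neg_pos.mpr hwr)]

/-- the other half of the proof of the next theorem -/
theorem uni_aux2 {p q r : ℤ × ℤ} (hN : DD p q r = 1) (hpq : Meet T p q) (hqr : Meet T q r)
    (hpr : Meet T p r) (hp : toR p ∉ hull T) (hr : toR r ∉ hull T)
    {w : ℝ × ℝ × ℝ} (hw : ∀ t ∈ T, 0 < ev w (toR t)) (hwr : ev w (toR r) < 0) :
    ev w (toR q) < ev w (toR p) := by
  obtain ⟨x, hx, h1⟩ := beyond_uni (p := q) (q := r) (r := p) (by rw [DD_rot]; exact hN)
    hpr.symm hr hp
  rw [DD_rot p x r] at h1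
  obtain ⟨v, hvp, hv⟩ := sep_pt hp
  have wp := hpr.symm.pos_of_neg hw hwr
  have wq := hqr.symm.pos_of_neg hw hwr
  have vq := hpq.pos_of_neg hv hvp
  have vr := hpr.pos_of_neg hv hvp
  have b1 := bary p q r x w
  have b2 := bary p q r x v
  have hs := DD_sum p q r x
  rw [hN] at b1 b2 hs
  have wx := hw x hx
  have vx := hv x hx
  set l1 := DD x q r
  set l2 := DD p x r
  set l3 := DD p q x
  push_cast at b1 b2
  have hl1 : (l2 : ℝ) ≤ -1 := by
    have : l2 ≤ -1 := by omega
    exact_mod_cast this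
  have hl2 : 1 ≤ l1 := by
    by_contra hcon
    have i1 : (l1 : ℝ) ≤ 0 := by
      have : l1 ≤ 0 := by omega
      exact_mod_cast this
    have i2 : (0 : ℝ) ≤ l3 := by
      have : 0 ≤ l3 := by omega
      exact_mod_cast this
    nlinarith [mul_nonneg i2 (neg_pos.mpr hwr).le, mul_nonneg (neg_nonneg.mpr i1) wp.le,
      mul_nonneg (by linarith : (0 : ℝ) ≤ - l2) wq.le]
  have hl3 : 1 ≤ l3 := by
    by_contra hcon
    have i1 : (l3 : ℝ) ≤ 0 := by
      have : l3 ≤ 0 := by omega
      exact_mod_cast this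
    have i2 : (0 : ℝ) ≤ l1 := by exact_mod_cast (by omega : 0 ≤ l1)
    nlinarith [mul_nonneg i2 (neg_pos.mpr hvp).le, mul_nonneg (neg_nonneg.mpr i1) vr.le,
      mul_nonneg (by linarith : (0 : ℝ) ≤ - l2) vq.le]
  have i2 : (l1 : ℝ) ≤ - l2 := by
    have : l1 ≤ - l2 := by omega
    exact_mod_cast this
  have i3 : (1 : ℝ) ≤ l3 := by exact_mod_cast hl3
  by_contra hcon
  push Not at hcon
  nlinarith [mul_nonneg (by linarith : (0 : ℝ) ≤ - l2) (sub_nonneg.mpr hcon),
    mul_nonneg (by linarith : (0 : ℝ) ≤ - l2 - l1) wp.le, mul_pos (by linarith : (0 : ℝ) < l3)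
    (neg_pos.mpr hwr)]

/-- no unimodular triangle meets the polygon in all three sides and in no vertex -/
theorem no_unimodular {p q r : ℤ × ℤ} (hN : DD p q r = 1) (hpq : Meet T p q) (hqr : Meet T q r)
    (hpr : Meet T p r) (hp : toR p ∉ hull T) (hq : toR q ∉ hull T) (hr : toR r ∉ hull T) :
    False := by
  obtain ⟨w, hwr, hw⟩ := sep_pt hr
  exact lt_asymm (uni_aux hN hpq hqr hpr hq hr hw hwr) (uni_aux2 hN hpq hqr hpr hp hr hw hwr)

/-- one case of the descent -/
theorem step_aux {p q r z : ℤ × ℤ} (hN : 0 < DD p q r) (hpq : Meet T p q)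
    (hpr : Meet T p r) (hp : toR p ∉ hull T) (hq : toR q ∉ hull T) (hr : toR r ∉ hull T)
    (ha : 0 ≤ DD z q r) (hb : 0 ≤ DD p z r) (hc : 0 ≤ DD p q z)
    {w : ℝ × ℝ × ℝ} (hw : ∀ t ∈ T, 0 < ev w (toR t)) (hwz : ev w (toR z) < 0)
    (hwp : ev w (toR p) < 0) :
    0 < DD z q r ∧ Meet T z q ∧ Meet T z r := by
  obtain ⟨s, s0, s1, hs⟩ := hpq.pos hp hq
  obtain ⟨u, u0, u1, hu⟩ := hpr.pos hp hr
  have hNR : (0 : ℝ) < DD p q r := by exact_mod_cast hN
  have haR : (0 : ℝ) ≤ DD z q r := by exact_mod_cast ha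
  have hbR : (0 : ℝ) ≤ DD p z r := by exact_mod_cast hb
  have hcR : (0 : ℝ) ≤ DD p q z := by exact_mod_cast hc
  have hsum : (DD z q r : ℝ) + DD p z r + DD p q z = DD p q r := by
    exact_mod_cast DD_sum p q r z
  have k1 := ev_pos_hull hw hs
  have k2 := ev_pos_hull hw hu
  rw [ev_comb] at k1 k2
  have b1 := bary p q r z w
  -- the basic inequality
  have key : (DD p z r : ℝ) / s + DD p q z / u < DD p q r := by
    set P := - ev w (toR p) with hP
    have hP0 : 0 < P := by rw [hP]; linarith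
    have j1 : P / s ≤ P + ev w (toR q) := by
      rw [div_le_iff₀ s0]
      nlinarith
    have j2 : P / u ≤ P + ev w (toR r) := by
      rw [div_le_iff₀ u0]
      nlinarith
    have j3 := mul_le_mul_of_nonneg_left j1 hbR
    have j4 := mul_le_mul_of_nonneg_left j2 hcR
    have j5 : (DD p q r : ℝ) * ev w (toR z) < 0 := mul_neg_of_pos_of_neg hNR hwz
    have j6 : ((DD p z r : ℝ) / s + DD p q z / u) * P < DD p q r * P := by
      have : ((DD p z r : ℝ) / s + DD p q z / u) * P = DD p z r * (P / s) + DD p q z * (P / u) := by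
        ring
      rw [this]
      nlinarith
    exact lt_of_mul_lt_mul_right j6 hP0.le
  -- consequence
  have main : ∀ v : ℝ × ℝ × ℝ, (∀ t ∈ T, 0 < ev v (toR t)) → 0 < ev v (toR p) →
      0 ≤ ev v (toR z) := by
    intro v hv hvp
    have k1 := ev_pos_hull hv hs
    have k2 := ev_pos_hull hv hu
    rw [ev_comb] at k1 k2
    have b2 := bary p q r z v
    set P := ev v (toR p) with hP
    have j1 : - P * (1 / s - 1) ≤ ev v (toR q) := by
      have : - P * (1 / s - 1) = (- P * (1 - s)) / s := by field_simp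
      rw [this, div_le_iff₀ s0]
      nlinarith
    have j2 : - P * (1 / u - 1) ≤ ev v (toR r) := by
      have : - P * (1 / u - 1) = (- P * (1 - u)) / u := by field_simp
      rw [this, div_le_iff₀ u0]
      nlinarith
    have j3 := mul_le_mul_of_nonneg_left j1 hbR
    have j4 := mul_le_mul_of_nonneg_left j2 hcR
    have j5 := mul_pos hvp (sub_pos.mpr key)
    have j6 : 0 ≤ (DD p q r : ℝ) * ev v (toR z) := by
      rw [b2]
      have e : P * ((DD p q r : ℝ) - (DD p z r / s + DD p q z / u)) =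
        DD z q r * P + DD p z r * (- P * (1 / s - 1)) + DD p q z * (- P * (1 / u - 1)) := by
        rw [← hsum]
        ring
      linarith
    exact nonneg_of_mul_nonneg_right j6 hNR
  refine ⟨?_, ?_, ?_⟩
  · by_contra hcon
    have h0 : DD z q r = 0 := by omega
    rw [h0] at hsum
    push_cast at hsum
    have i1 : (DD p z r : ℝ) ≤ DD p z r / s := by
      rw [le_div_iff₀ s0]
      nlinarith
    have i2 : (DD p q z : ℝ) ≤ DD p q z / u := by
      rw [le_div_iff₀ u0]
      nlinarith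
    linarith
  · by_contra hcon
    obtain ⟨v, v1, v2, v3⟩ := not_meet hcon
    have := main v v3 (hpq.symm.pos_of_neg v3 v2)
    linarith
  · by_contra hcon
    obtain ⟨v, v1, v2, v3⟩ := not_meet hcon
    have := main v v3 (hpr.symm.pos_of_neg v3 v2)
    linarith

/-- the descent -/
theorem triple_step {p q r z : ℤ × ℤ} (hN : 0 < DD p q r) (hpq : Meet T p q) (hqr : Meet T q r)
    (hpr : Meet T p r) (hp : toR p ∉ hull T) (hq : toR q ∉ hull T) (hr : toR r ∉ hull T)
    (hz : toR z ∉ hull T)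
    (ha : 0 ≤ DD z q r) (hb : 0 ≤ DD p z r) (hc : 0 ≤ DD p q z) (ha' : DD z q r < DD p q r)
    (hb' : DD p z r < DD p q r) (hc' : DD p q z < DD p q r) :
    ∃ p' q' r', (p' = z ∨ p' = p) ∧ (q' = z ∨ q' = q) ∧ (r' = z ∨ r' = r) ∧
      0 < DD p' q' r' ∧ DD p' q' r' < DD p q r ∧ Meet T p' q' ∧ Meet T q' r' ∧ Meet T p' r' := by
  obtain ⟨w, hwz, hw⟩ := sep_pt hz
  by_cases hwp : ev w (toR p) < 0
  · obtain ⟨h1, h2, h3⟩ := step_aux hN hpq hpr hp hq hr ha hb hc hw hwz hwp
    exact ⟨z, q, r, Or.inl rfl, Or.inr rfl, Or.inr rfl, h1, ha', h2, hqr, h3⟩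
  by_cases hwq : ev w (toR q) < 0
  · obtain ⟨h1, h2, h3⟩ := step_aux (p := q) (q := r) (r := p) (z := z)
      (by rw [DD_rot]; exact hN) hqr hpq.symm hq hr hp
      (by rw [DD_rot p z r]; exact hb) (by rw [DD_rot p q z]; exact hc)
      (by rw [DD_rot z q r]; exact ha) hw hwz hwq
    rw [DD_rot p z r] at h1
    exact ⟨p, z, r, Or.inr rfl, Or.inl rfl, Or.inr rfl, h1, hb', h3.symm, h2, hpr⟩
  by_cases hwr : ev w (toR r) < 0
  · have e := DD_rot p q r
    obtain ⟨h1, h2, h3⟩ := step_aux (p := r) (q := p) (r := q) (z := z)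
      (by rw [← DD_rot r p q]; exact hN) hpr.symm hqr.symm hr hp hq
      (by rw [← DD_rot z p q]; exact hc) (by rw [← DD_rot r z q]; exact ha)
      (by rw [← DD_rot r p z]; exact hb) hw hwz hwr
    rw [← DD_rot z p q] at h1
    exact ⟨p, q, z, Or.inr rfl, Or.inr rfl, Or.inl rfl, h1, hc', hpq, h3.symm, h2.symm⟩
  exfalso
  push Not at hwp hwq hwr
  have b := bary p q r z w
  have hNR : (0 : ℝ) < DD p q r := by exact_mod_cast hN
  have haR : (0 : ℝ) ≤ DD z q r := by exact_mod_cast ha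
  have hbR : (0 : ℝ) ≤ DD p z r := by exact_mod_cast hb
  have hcR : (0 : ℝ) ≤ DD p q z := by exact_mod_cast hc
  have j5 : (DD p q r : ℝ) * ev w (toR z) < 0 := mul_neg_of_pos_of_neg hNR hwz
  rw [b] at j5
  have := mul_nonneg haR hwp
  have := mul_nonneg hbR hwq
  have := mul_nonneg hcR hwr
  linarith

theorem exists_ge {w : ℝ × ℝ × ℝ} {x : ℝ × ℝ} (hx : x ∈ hull T) : ∃ t ∈ T, ev w x ≤ ev w (toR t) := by
  by_contra hcon
  push Not at hcon
  have := ev_pos_hull (w := (-w.1, -w.2.1, ev w x - w.2.2)) (T := T) (fun t ht => by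
    have := hcon t ht
    simp only [ev] at this ⊢
    linarith) hx
  simp only [ev] at this
  linarith

theorem ev3 (w : ℝ × ℝ × ℝ) (x y z : ℝ × ℝ) {a b c : ℝ} (h : a + b + c = 1) :
    ev w (a • x + b • y + c • z) = a * ev w x + b * ev w y + c * ev w z := by
  simp only [ev, Prod.fst_add, Prod.snd_add, Prod.smul_fst, Prod.smul_snd, smul_eq_mul]
  linear_combination (-w.2.2) * h

/-- the main case of the next theorem -/
theorem miss_aux {S : Finset (ℤ × ℤ)} (hTS : ∀ t ∈ T, toR t ∉ hull S) {p q r : ℤ × ℤ}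
    (hp : p ∈ S) (hq : q ∈ S) (hr : r ∈ S) (hN : 0 < DD p q r) (h1 : ¬ Meet T p q)
    (h2 : ¬ Meet T q r) {a b c : ℝ} (ha : 0 ≤ a) (hb : 0 ≤ b) (hc : 0 ≤ c) (habc : a + b + c = 1)
    (hx : a • toR p + b • toR q + c • toR r ∈ hull T) : False := by
  obtain ⟨v, vp, vq, hv⟩ := not_meet h1
  obtain ⟨w, wq, wr, hw⟩ := not_meet h2
  have v1 := ev_pos_hull hv hx
  have w1 := ev_pos_hull hw hx
  rw [ev3 _ _ _ _ habc] at v1 w1
  have hNR : (0 : ℝ) < DD p q r := by exact_mod_cast hN
  have vr : 0 < ev v (toR r) := by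
    by_contra hcon
    push Not at hcon
    nlinarith [mul_nonneg hc (neg_nonneg.mpr hcon), mul_nonneg ha (neg_pos.mpr vp).le,
      mul_nonneg hb (neg_pos.mpr vq).le]
  have wp : 0 < ev w (toR p) := by
    by_contra hcon
    push Not at hcon
    nlinarith [mul_nonneg ha (neg_nonneg.mpr hcon), mul_nonneg hb (neg_pos.mpr wq).le,
      mul_nonneg hc (neg_pos.mpr wr).le]
  -- a vertex with nonnegative middle coordinate
  let u : ℝ × ℝ × ℝ := (-((r.2 - p.2 : ℤ) : ℝ) * (-1), ((r.1 - p.1 : ℤ) : ℝ) * (-1),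
    (-((r.2 - p.2 : ℤ) : ℝ) * p.1 + ((r.1 - p.1 : ℤ) : ℝ) * p.2))
  have hu : ∀ t : ℤ × ℤ, ev u (toR t) = DD p t r := by
    intro t
    simp only [ev, u, toR, DD]
    push_cast
    ring
  obtain ⟨t, ht, htu⟩ := exists_ge (w := u) hx
  rw [ev3 _ _ _ _ habc, hu, hu, hu, hu] at htu
  have e1 : DD p p r = 0 := by simp [DD]
  have e2 : DD p r r = 0 := by simp only [DD]; ring
  rw [e1, e2] at htu
  push_cast at htu
  have hbeta : (0 : ℝ) ≤ DD p t r := by nlinarith [mul_nonneg hb hNR.le]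
  have vt := hv t ht
  have wt := hw t ht
  have b1 := bary p q r t v
  have b2 := bary p q r t w
  have hs : (DD t q r : ℝ) + DD p t r + DD p q t = DD p q r := by
    exact_mod_cast DD_sum p q r t
  have hT := hTS t ht
  have hnot : ¬ (0 ≤ DD t q r ∧ 0 ≤ DD p q t) := by
    rintro ⟨g1, g2⟩
    apply hT
    have g1' : (0 : ℝ) ≤ DD t q r := by exact_mod_cast g1
    have g2' : (0 : ℝ) ≤ DD p q t := by exact_mod_cast g2
    have hc3 := (convex_convexHull ℝ (toR '' (S : Set (ℤ × ℤ)))).sum_mem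
      (t := Finset.univ) (w := ![(DD t q r : ℝ) / DD p q r, (DD p t r : ℝ) / DD p q r,
        (DD p q t : ℝ) / DD p q r]) (z := ![toR p, toR q, toR r]) (by
        intro i _
        fin_cases i
        · exact div_nonneg g1' hNR.le
        · exact div_nonneg hbeta hNR.le
        · exact div_nonneg g2' hNR.le) (by
        simp only [Fin.sum_univ_three, Matrix.cons_val_zero, Matrix.cons_val_one,
          Matrix.cons_val_two, Matrix.head_cons, Matrix.tail_cons]
        rw [← add_div, ← add_div, hs, div_self hNR.ne']) (by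
        intro i _
        fin_cases i
        · exact mem_hull hp
        · exact mem_hull hq
        · exact mem_hull hr)
    simp only [Fin.sum_univ_three, Matrix.cons_val_zero, Matrix.cons_val_one,
      Matrix.cons_val_two, Matrix.head_cons, Matrix.tail_cons] at hc3
    have heq : ((DD t q r : ℝ) / DD p q r) • toR p + ((DD p t r : ℝ) / DD p q r) • toR q +
        ((DD p q t : ℝ) / DD p q r) • toR r = toR t := by
      obtain ⟨c1, c2⟩ := baryc p q r t
      have c1' : (DD p q r : ℝ) * t.1 = DD t q r * p.1 + DD p t r * q.1 + DD p q t * r.1 := by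
        exact_mod_cast c1
      have c2' : (DD p q r : ℝ) * t.2 = DD t q r * p.2 + DD p t r * q.2 + DD p q t * r.2 := by
        exact_mod_cast c2
      ext
      · simp only [toR, Prod.fst_add, Prod.smul_fst, smul_eq_mul]
        field_simp
        linear_combination -c1'
      · simp only [toR, Prod.snd_add, Prod.smul_snd, smul_eq_mul]
        field_simp
        linear_combination -c2'
    rw [← heq]
    exact hc3
  have j1 : 0 < (DD p q r : ℝ) * ev v (toR t) := mul_pos hNR vt
  have j2 : 0 < (DD p q r : ℝ) * ev w (toR t) := mul_pos hNR wt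
  rw [b1] at j1
  rw [b2] at j2
  have m1 := mul_nonneg hbeta (neg_pos.mpr vq).le
  have m2 := mul_nonneg hbeta (neg_pos.mpr wq).le
  rcases lt_or_ge (DD t q r) 0 with g1 | g1
  · have g1' : (DD t q r : ℝ) < 0 := by exact_mod_cast g1
    rcases lt_or_ge (DD p q t) 0 with g2 | g2
    · have g2' : (DD p q t : ℝ) < 0 := by exact_mod_cast g2
      -- both are negative
      have n1 : 0 < c * ev v (toR r) + a * ev v (toR p) := by
        nlinarith [mul_nonneg hb (neg_pos.mpr vq).le]
      have n2 : 0 < a * ev w (toR p) + c * ev w (toR r) := by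
        nlinarith [mul_nonneg hb (neg_pos.mpr wq).le]
      have n3 : 0 < (DD t q r : ℝ) * ev v (toR p) + DD p q t * ev v (toR r) := by linarith
      have n4 : 0 < (DD t q r : ℝ) * ev w (toR p) + DD p q t * ev w (toR r) := by linarith
      -- a' c > c' a and c' a > a' c
      have c1 : 0 < c := by
        by_contra hcon
        have : c = 0 := by linarith
        rw [this] at n1
        nlinarith [mul_nonneg ha (neg_pos.mpr vp).le]
      have a1 : 0 < a := by
        by_contra hcon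
        have : a = 0 := by linarith
        rw [this] at n2
        nlinarith [mul_nonneg hc (neg_pos.mpr wr).le]
      have o1 : 0 < (DD t q r : ℝ) * c * ev v (toR p) - DD p q t * a * ev v (toR p) := by
        have := mul_pos n3 c1
        have := mul_pos n1 (neg_pos.mpr g2')
        nlinarith
      have o2 : 0 < (DD p q t : ℝ) * a * ev w (toR r) - DD t q r * c * ev w (toR r) := by
        have := mul_pos n4 a1
        have := mul_pos n2 (neg_pos.mpr g1')
        nlinarith
      have o3 : (DD t q r : ℝ) * c - DD p q t * a < 0 := by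
        by_contra hcon
        push Not at hcon
        nlinarith [mul_nonneg hcon (neg_pos.mpr vp).le]
      have o4 : (DD p q t : ℝ) * a - DD t q r * c < 0 := by
        by_contra hcon
        push Not at hcon
        nlinarith [mul_nonneg hcon (neg_pos.mpr wr).le]
      linarith
    · have g2' : (0 : ℝ) ≤ DD p q t := by exact_mod_cast g2
      nlinarith [mul_nonneg g2' (neg_pos.mpr wr).le, mul_pos (neg_pos.mpr g1') wp]
  · have g1' : (0 : ℝ) ≤ DD t q r := by exact_mod_cast g1
    have g2 : DD p q t < 0 := by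
      by_contra hcon
      exact hnot ⟨g1, by omega⟩
    have g2' : (DD p q t : ℝ) < 0 := by exact_mod_cast g2
    nlinarith [mul_nonneg g1' (neg_pos.mpr vp).le, mul_pos (neg_pos.mpr g2') vr]

/-- if two sides of a triangle miss the polygon, then the triangle does -/
theorem tri_miss {S : Finset (ℤ × ℤ)} (hTS : ∀ t ∈ T, toR t ∉ hull S) {p q r : ℤ × ℤ}
    (hp : p ∈ S) (hq : q ∈ S) (hr : r ∈ S) (h1 : ¬ Meet T p q)
    (h2 : ¬ Meet T q r) {a b c : ℝ} (ha : 0 ≤ a) (hb : 0 ≤ b) (hc : 0 ≤ c) (habc : a + b + c = 1)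
    (hx : a • toR p + b • toR q + c • toR r ∈ hull T) : False := by
  rcases lt_trichotomy (DD p q r) 0 with h0 | h0 | h0
  · have e : 0 < DD r q p := by
      have : DD r q p = - DD p q r := by simp only [DD]; ring
      omega
    refine miss_aux hTS hr hq hp e (fun h => h2 h.symm) (fun h => h1 h.symm) hc hb ha
      (by linarith) ?_
    have : c • toR r + b • toR q + a • toR p = a • toR p + b • toR q + c • toR r := by abel
    rw [this]
    exact hx
  · obtain ⟨v, vp, vq, hv⟩ := not_meet h1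
    obtain ⟨w, wq, wr, hw⟩ := not_meet h2
    have v1 := ev_pos_hull hv hx
    have w1 := ev_pos_hull hw hx
    rw [ev3 _ _ _ _ habc] at v1 w1
    have vr : 0 < ev v (toR r) := by
      by_contra hcon
      push Not at hcon
      nlinarith [mul_nonneg hc (neg_nonneg.mpr hcon), mul_nonneg ha (neg_pos.mpr vp).le,
        mul_nonneg hb (neg_pos.mpr vq).le]
    have wp : 0 < ev w (toR p) := by
      by_contra hcon
      push Not at hcon
      nlinarith [mul_nonneg ha (neg_nonneg.mpr hcon), mul_nonneg hb (neg_pos.mpr wq).le,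
        mul_nonneg hc (neg_pos.mpr wr).le]
    have e : (ev v (toR q) - ev v (toR p)) * (ev w (toR r) - ev w (toR p)) =
        (ev v (toR r) - ev v (toR p)) * (ev w (toR q) - ev w (toR p)) := by
      have h0' : ((q.1 : ℝ) - p.1) * (r.2 - p.2) - (q.2 - p.2) * (r.1 - p.1) = 0 := by
        have := h0
        simp only [DD] at this
        exact_mod_cast this
      simp only [ev, toR]
      linear_combination (v.1 * w.2.1 - v.2.1 * w.1) * h0'
    set U := ev v (toR r) - ev v (toR p) with hU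
    set V := ev w (toR r) - ev w (toR p) with hV
    set u1 := ev v (toR q) - ev v (toR p) with hu1
    set v2 := ev w (toR q) - ev w (toR p) with hv2
    have hU0 : 0 < U := by rw [hU]; linarith
    have hV0 : V < 0 := by rw [hV]; linarith
    have i1 : 0 < (b - 1) * u1 + c * U := by
      have : (b - 1) * u1 + c * U = a * ev v (toR p) + b * ev v (toR q) + c * ev v (toR r)
          - ev v (toR q) := by
        rw [hu1, hU]
        linear_combination (- ev v (toR p)) * habc
      linarith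
    have i2 : 0 < (b - 1) * v2 + c * V := by
      have : (b - 1) * v2 + c * V = a * ev w (toR p) + b * ev w (toR q) + c * ev w (toR r)
          - ev w (toR q) := by
        rw [hv2, hV]
        linear_combination (- ev w (toR p)) * habc
      linarith
    have i3 := mul_pos i1 (neg_pos.mpr hV0)
    have i4 := mul_pos i2 hU0
    have : ((b - 1) * u1 + c * U) * -V + ((b - 1) * v2 + c * V) * U = 0 := by
      linear_combination (-(b - 1)) * e
    linarith
  · exact miss_aux hTS hp hq hr h0 h1 h2 ha hb hc habc hx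

/-- Caratheodory in the plane -/
theorem cara {S : Finset (ℤ × ℤ)} {x : ℝ × ℝ} (hx : x ∈ hull S) :
    ∃ p ∈ S, ∃ q ∈ S, ∃ r ∈ S, ∃ a b c : ℝ, 0 ≤ a ∧ 0 ≤ b ∧ 0 ≤ c ∧ a + b + c = 1 ∧
      a • toR p + b • toR q + c • toR r = x := by
  obtain ⟨ι, _, z, w, hz, hai, hw, hsum, hxx⟩ := eq_pos_convex_span_of_mem_convexHull hx
  have hcard : Fintype.card ι ≤ 3 := by
    have h1 := hai.card_le_finrank_succ
    have h2 : Module.finrank ℝ (vectorSpan ℝ (Set.range z)) ≤ Module.finrank ℝ (ℝ × ℝ) :=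
      Submodule.finrank_le _
    have h3 : Module.finrank ℝ (ℝ × ℝ) = 2 := by simp
    omega
  have hz' : ∀ i, ∃ p ∈ S, toR p = z i := by
    intro i
    obtain ⟨p, hp, hpz⟩ := hz ⟨i, rfl⟩
    exact ⟨p, by simpa using hp, hpz⟩
  choose f hf hfz using hz'
  obtain ⟨n, hn⟩ : ∃ n, Fintype.card ι = n := ⟨_, rfl⟩
  have e : ι ≃ Fin n := Fintype.equivFinOfCardEq hn
  rw [hn] at hcard
  have hsum2 : ∑ i : Fin n, w (e.symm i) = 1 := by
    rw [← hsum]
    exact Equiv.sum_comp e.symm w
  have hxx2 : ∑ i : Fin n, w (e.symm i) • z (e.symm i) = x := by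
    rw [← hxx]
    exact Equiv.sum_comp e.symm (fun i => w i • z i)
  clear hn
  interval_cases n
  · simp at hsum2
  · simp only [Finset.univ_unique, Fin.default_eq_zero, Fin.isValue, Finset.sum_singleton] at hsum2 hxx2
    refine ⟨f (e.symm 0), hf _, f (e.symm 0), hf _, f (e.symm 0), hf _, 1, 0, 0, by norm_num,
      le_refl _, le_refl _, by norm_num, ?_⟩
    rw [hfz, ← hxx2, hsum2]
    simp
  · simp only [Fin.sum_univ_two] at hsum2 hxx2
    refine ⟨f (e.symm 0), hf _, f (e.symm 1), hf _, f (e.symm 1), hf _, w (e.symm 0),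
      w (e.symm 1), 0, (hw _).le, (hw _).le, le_refl _, by linarith, ?_⟩
    rw [hfz, hfz, ← hxx2]
    simp
  · simp only [Fin.sum_univ_three] at hsum2 hxx2
    refine ⟨f (e.symm 0), hf _, f (e.symm 1), hf _, f (e.symm 2), hf _, w (e.symm 0),
      w (e.symm 1), w (e.symm 2), (hw _).le, (hw _).le, (hw _).le, hsum2, ?_⟩
    rw [hfz, hfz, hfz, ← hxx2]

/-- the contradiction at an edge of the hull of `S` joining the two classes -/
theorem edge {S : Finset (ℤ × ℤ)} (hST : ∀ s ∈ S, toR s ∉ hull T)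
    (hsec : ∀ c q : ℤ × ℤ, IsCoprime c.1 c.2 → q ∈ S → (q.1 + c.2, q.2 - c.1) ∈ S →
      (∀ s ∈ S, c.1 * q.1 + c.2 * q.2 ≤ c.1 * s.1 + c.2 * s.2) →
      ∃ r : ℝ × ℝ, r ∈ convexHull ℝ (toR '' (T : Set (ℤ × ℤ))) ∧
        (r.1 + c.2, r.2 - c.1) ∈ convexHull ℝ (toR '' (T : Set (ℤ × ℤ))) ∧
        ∀ t ∈ T, (c.1 * t.1 + c.2 * t.2 : ℝ) ≤ c.1 * r.1 + c.2 * r.2 + 1)
    {c q : ℤ × ℤ} (hc : IsCoprime c.1 c.2) (hq : q ∈ S) (hq' : (q.1 + c.2, q.2 - c.1) ∈ S)
    (hmin : ∀ s ∈ S, c.1 * q.1 + c.2 * q.2 ≤ c.1 * s.1 + c.2 * s.2)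
    (hm : Meet T q (q.1 + c.2, q.2 - c.1))
    {X Y : ℝ × ℝ × ℝ} (hX : ∀ t ∈ T, 0 < ev X (toR t)) (hY : ∀ t ∈ T, 0 < ev Y (toR t))
    (hXq : ev X (toR q) < 0) (hYq : ev Y (toR (q.1 + c.2, q.2 - c.1)) < 0) {α β μ : ℝ}
    (hα : 0 < α) (hβ : 0 < β) (hμ : 0 < μ)
    (h1 : μ * c.1 = - (α * X.1 + β * Y.1)) (h2 : μ * c.2 = - (α * X.2.1 + β * Y.2.1)) :
    False := by
  obtain ⟨t, ht, htc⟩ := beyond (T := T) (p := (q.1 + c.2, q.2 - c.1)) (q := q)
    (fun z hz h0 h1 => by
      obtain ⟨a, b, hab⟩ := hc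
      set k := b * (z.1 - q.1) - a * (z.2 - q.2) with hk
      have hz' : c.1 * (z.1 - q.1) + c.2 * (z.2 - q.2) = 0 := by
        simp only [DD] at hz
        linear_combination -hz
      have f1 : z.1 - q.1 = k * c.2 := by
        rw [hk]
        linear_combination (-(z.1 - q.1)) * hab + a * hz'
      have f2 : z.2 - q.2 = - (k * c.1) := by
        rw [hk]
        linear_combination (-(z.2 - q.2)) * hab + b * hz'
      simp only at h0 h1
      have e1 : z.1 - (q.1 + c.2) = (k - 1) * c.2 := by linear_combination f1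
      have e2 : z.2 - (q.2 - c.1) = - ((k - 1) * c.1) := by linear_combination f2
      rw [e1, e2] at h0 h1
      set G := c.1 ^ 2 + c.2 ^ 2 with hG
      have hG0 : 0 < G := by
        rcases lt_or_eq_of_le (add_nonneg (sq_nonneg c.1) (sq_nonneg c.2)) with h3 | h3
        · exact h3
        · exfalso
          have e1 : c.1 = 0 := by nlinarith [sq_nonneg c.1, sq_nonneg c.2]
          have e2 : c.2 = 0 := by nlinarith [sq_nonneg c.1, sq_nonneg c.2]
          rw [e1, e2] at hab
          simp at hab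
      have g0 : 0 ≤ (1 - k) * G := by
        rw [hG]
        linarith
      have g1 : (1 - k) * G ≤ 1 * G := by
        rw [hG]
        linarith
      have k0 : 0 ≤ 1 - k := nonneg_of_mul_nonneg_left g0 hG0
      have k1 : 1 - k ≤ 1 := le_of_mul_le_mul_right g1 hG0
      have : k = 0 ∨ k = 1 := by omega
      rcases this with h4 | h4
      · rw [h4] at f1 f2
        have : z = q := by ext <;> omega
        rw [this]; exact hST q hq
      · rw [h4] at f1 f2
        have : z = (q.1 + c.2, q.2 - c.1) := by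
          ext
          · show z.1 = q.1 + c.2
            omega
          · show z.2 = q.2 - c.1
            omega
        rw [this]; exact hST _ hq') hm.symm
  obtain ⟨ρ, hρ, hρ', hle⟩ := hsec c q hc hq hq' hmin
  have htc2 : c.1 * q.1 + c.2 * q.2 + 1 ≤ c.1 * t.1 + c.2 * t.2 := by
    simp only [DD] at htc
    have : 0 < c.1 * t.1 + c.2 * t.2 - (c.1 * q.1 + c.2 * q.2) := by linarith
    omega
  have htc3 : (c.1 * q.1 + c.2 * q.2 + 1 : ℝ) ≤ c.1 * t.1 + c.2 * t.2 := by exact_mod_cast htc2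
  have h3 := hle t ht
  have h4 := ev_pos_hull hX hρ
  have h5 := ev_pos_hull hY hρ'
  have h6 : 0 < α * (ev X ρ - ev X (toR q)) := mul_pos hα (by linarith)
  have h7 : 0 < β * (ev Y (ρ.1 + c.2, ρ.2 - c.1) - ev Y (toR (q.1 + c.2, q.2 - c.1))) :=
    mul_pos hβ (by linarith)
  have h8 : 0 ≤ μ * (c.1 * ρ.1 + c.2 * ρ.2 - (c.1 * q.1 + c.2 * q.2)) :=
    mul_nonneg hμ.le (by linarith)
  have h9 : μ * (c.1 * ρ.1 + c.2 * ρ.2 - (c.1 * q.1 + c.2 * q.2)) =
      - (α * (ev X ρ - ev X (toR q)) +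
      β * (ev Y (ρ.1 + c.2, ρ.2 - c.1) - ev Y (toR (q.1 + c.2, q.2 - c.1)))) := by
    simp only [ev, toR]
    push_cast
    linear_combination (ρ.1 - q.1) * h1 + (ρ.2 - q.2) * h2
  linarith

/-- collinear points do not cross pairwise -/
theorem no_collinear {p q r : ℤ × ℤ} (h0 : DD p q r = 0) (hp : toR p ∉ hull T)
    (hq : toR q ∉ hull T) (hr : toR r ∉ hull T) (hpq : Meet T p q) (hqr : Meet T q r)
    (hpr : Meet T p r) : False := by
  obtain ⟨u, up, hu⟩ := sep_pt hp
  obtain ⟨v, vq, hv⟩ := sep_pt hq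
  obtain ⟨w, wr, hw⟩ := sep_pt hr
  have uq := hpq.pos_of_neg hu up
  have ur := hpr.pos_of_neg hu up
  have vp := hpq.symm.pos_of_neg hv vq
  have vr := hqr.pos_of_neg hv vq
  have wp := hpr.symm.pos_of_neg hw wr
  have wq := hqr.symm.pos_of_neg hw wr
  have h0' : ((q.1 : ℝ) - p.1) * (r.2 - p.2) - (q.2 - p.2) * (r.1 - p.1) = 0 := by
    have := h0
    simp only [DD] at this
    exact_mod_cast this
  have id : ∀ x : ℝ × ℝ × ℝ, (ev v (toR q) - ev v (toR r)) * ev x (toR p) +
      (ev v (toR r) - ev v (toR p)) * ev x (toR q) +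
      (ev v (toR p) - ev v (toR q)) * ev x (toR r) = 0 := by
    intro x
    simp only [ev, toR]
    linear_combination (x.1 * v.2.1 - v.1 * x.2.1) * h0'
  rcases le_or_gt (ev v (toR p)) (ev v (toR r)) with h | h
  · have := id u
    nlinarith [mul_nonneg (sub_nonneg.mpr h) uq.le, mul_pos (by linarith :
      0 < ev v (toR p) - ev v (toR q)) ur, mul_pos (by linarith :
      0 < ev v (toR r) - ev v (toR q)) (neg_pos.mpr up)]
  · have := id w
    nlinarith [mul_pos (sub_pos.mpr h) wq, mul_pos (by linarith :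
      0 < ev v (toR p) - ev v (toR q)) (neg_pos.mpr wr), mul_pos (by linarith :
      0 < ev v (toR r) - ev v (toR q)) wp]

/-- perturbation of a separating function -/
theorem perturb {L : Finset (ℤ × ℤ)} {w v : ℝ × ℝ × ℝ} (hL : ∀ l ∈ L, ev w (toR l) < 0)
    (hT : ∀ t ∈ T, 0 < ev w (toR t)) (hv : v.1 ^ 2 + v.2.1 ^ 2 ≠ 0) :
    ∃ w' : ℝ × ℝ × ℝ, (∀ l ∈ L, ev w' (toR l) < 0) ∧ (∀ t ∈ T, 0 < ev w' (toR t)) ∧
      w'.1 * v.2.1 - w'.2.1 * v.1 ≠ 0 := by
  by_cases hdet : w.1 * v.2.1 - w.2.1 * v.1 = 0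
  · have hc : ∀ x : ℝ × ℝ, Continuous fun ε : ℝ => ev (w.1 + ε * v.2.1, w.2.1 - ε * v.1, w.2.2) x := by
      intro x
      simp only [ev]
      fun_prop
    have h1 : ∀ᶠ ε : ℝ in nhds 0, ∀ l ∈ L,
        ev (w.1 + ε * v.2.1, w.2.1 - ε * v.1, w.2.2) (toR l) < 0 := by
      rw [Filter.eventually_all_finset]
      intro l hl
      have h2 := (hc (toR l)).continuousAt (x := 0)
      exact h2.eventually_lt continuousAt_const (by simpa [ev] using hL l hl)
    have h2 : ∀ᶠ ε : ℝ in nhds 0, ∀ t ∈ T,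
        0 < ev (w.1 + ε * v.2.1, w.2.1 - ε * v.1, w.2.2) (toR t) := by
      rw [Filter.eventually_all_finset]
      intro t ht
      have h2 := (hc (toR t)).continuousAt (x := 0)
      exact continuousAt_const.eventually_lt h2 (by simpa [ev] using hT t ht)
    have h3 := ((h1.and h2).filter_mono (nhdsWithin_le_nhds (s := Set.Ioi 0))).and
      self_mem_nhdsWithin
    obtain ⟨ε, ⟨h4, h5⟩, h6⟩ := h3.exists
    refine ⟨_, h4, h5, ?_⟩
    have h6' : 0 < ε := h6
    simp only
    intro h7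
    have : ε * (v.1 ^ 2 + v.2.1 ^ 2) = 0 := by linear_combination h7 - hdet
    rcases mul_eq_zero.mp this with h8 | h8
    · exact h6'.ne' h8
    · exact hv h8
  · exact ⟨w, hL, hT, hdet⟩

/-- existence of a triangle with vertices in `S` all of whose sides cross the polygon -/
theorem exists_triple (T S : Finset (ℤ × ℤ)) (hTS : ∀ t ∈ T, toR t ∉ hull S)
    (hST : ∀ s ∈ S, toR s ∉ hull T)
    (hE : ∀ c z : ℤ × ℤ, IsCoprime c.1 c.2 → toR z ∈ hull S →
      (∀ s ∈ S, c.1 * z.1 + c.2 * z.2 ≤ c.1 * s.1 + c.2 * s.2) → z ∈ S)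
    (hmeet : (hull T ∩ hull S).Nonempty)
    (hsec : ∀ c q : ℤ × ℤ, IsCoprime c.1 c.2 → q ∈ S → (q.1 + c.2, q.2 - c.1) ∈ S →
      (∀ s ∈ S, c.1 * q.1 + c.2 * q.2 ≤ c.1 * s.1 + c.2 * s.2) →
      ∃ r : ℝ × ℝ, r ∈ convexHull ℝ (toR '' (T : Set (ℤ × ℤ))) ∧
        (r.1 + c.2, r.2 - c.1) ∈ convexHull ℝ (toR '' (T : Set (ℤ × ℤ))) ∧
        ∀ t ∈ T, (c.1 * t.1 + c.2 * t.2 : ℝ) ≤ c.1 * r.1 + c.2 * r.2 + 1) :
    ∃ p ∈ S, ∃ q ∈ S, ∃ r ∈ S, 0 < DD p q r ∧ Meet T p q ∧ Meet T q r ∧ Meet T p r := by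
  classical
  by_contra hcon
  push Not at hcon
  have no3 : ∀ p ∈ S, ∀ q ∈ S, ∀ r ∈ S, Meet T p q → Meet T q r → Meet T p r → False := by
    intro p hp q hq r hr h1 h2 h3
    rcases lt_trichotomy (DD p q r) 0 with h0 | h0 | h0
    · exact hcon q hq p hp r hr (by rw [DD_swap]; omega) h1.symm h3 h2
    · exact no_collinear h0 (hST p hp) (hST q hq) (hST r hr) h1 h2 h3
    · exact hcon p hp q hq r hr h0 h1 h2 h3
  have trans : ∀ p ∈ S, ∀ q ∈ S, ∀ r ∈ S, ¬ Meet T p q → ¬ Meet T q r → ¬ Meet T p r := by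
    rintro p hp q hq r hr h1 h2 ⟨s, s0, s1, hs⟩
    refine tri_miss hTS hp hq hr h1 h2 (a := 1 - s) (b := 0) (c := s) (by linarith) le_rfl s0
      (by ring) ?_
    simpa using hs
  obtain ⟨y, hyT, hyS⟩ := hmeet
  obtain ⟨l0, hl0, r0, hr0, hm0⟩ : ∃ l0 ∈ S, ∃ r0 ∈ S, Meet T l0 r0 := by
    obtain ⟨p, hp, q, hq, r, hr, a, b, c, ha, hb, hc, habc, hy⟩ := cara hyS
    by_contra hno
    push Not at hno
    exact tri_miss hTS hp hq hr (hno p hp q hq) (hno q hq r hr) ha hb hc habc
      (by rw [hy]; exact hyT)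
  have hrefl : ∀ p ∈ S, ¬ Meet T p p := by
    rintro p hp ⟨s, s0, s1, hs⟩
    apply hST p hp
    rw [← add_smul] at hs
    simpa using hs
  set L := S.filter (fun s => ¬ Meet T l0 s) with hL
  set R := S.filter (fun s => Meet T l0 s) with hR
  have memL : ∀ s, s ∈ L ↔ s ∈ S ∧ ¬ Meet T l0 s := fun s => by rw [hL, Finset.mem_filter]
  have memR : ∀ s, s ∈ R ↔ s ∈ S ∧ Meet T l0 s := fun s => by rw [hR, Finset.mem_filter]
  have hl0L : l0 ∈ L := (memL l0).mpr ⟨hl0, hrefl l0 hl0⟩
  have hr0R : r0 ∈ R := (memR r0).mpr ⟨hr0, hm0⟩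
  have hLR : ∀ l ∈ L, ∀ r ∈ R, Meet T l r := by
    intro l hl r hr
    by_contra hno
    obtain ⟨hl1, hl2⟩ := (memL l).mp hl
    obtain ⟨hr1, hr2⟩ := (memR r).mp hr
    exact trans l0 hl0 l hl1 r hr1 hl2 hno hr2
  have missL : ∀ x ∈ hull L, x ∉ hull T := by
    intro x hx hxT
    obtain ⟨p, hp, q, hq, r, hr, a, b, c, ha, hb, hc, habc, hy⟩ := cara hx
    obtain ⟨hp1, hp2⟩ := (memL p).mp hp
    obtain ⟨hq1, hq2⟩ := (memL q).mp hq
    obtain ⟨hr1, hr2⟩ := (memL r).mp hr
    exact tri_miss hTS hp1 hq1 hr1 (trans p hp1 l0 hl0 q hq1 (fun h => hp2 h.symm) hq2)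
      (trans q hq1 l0 hl0 r hr1 (fun h => hq2 h.symm) hr2) ha hb hc habc (by rw [hy]; exact hxT)
  have missR : ∀ x ∈ hull R, x ∉ hull T := by
    intro x hx hxT
    obtain ⟨p, hp, q, hq, r, hr, a, b, c, ha, hb, hc, habc, hy⟩ := cara hx
    obtain ⟨hp1, hp2⟩ := (memR p).mp hp
    obtain ⟨hq1, hq2⟩ := (memR q).mp hq
    obtain ⟨hr1, hr2⟩ := (memR r).mp hr
    exact tri_miss hTS hp1 hq1 hr1 (fun h => no3 l0 hl0 p hp1 q hq1 hp2 h hq2)
      (fun h => no3 l0 hl0 q hq1 r hr1 hq2 h hr2) ha hb hc habc (by rw [hy]; exact hxT)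
  obtain ⟨w, hwL, hwT⟩ := sep (T := T) (C := hull L) (convex_convexHull ℝ _) (compact_hull L) missL
  obtain ⟨v, hvR, hvT⟩ := sep (T := T) (C := hull R) (convex_convexHull ℝ _) (compact_hull R) missR
  have hvR' : ∀ r ∈ R, ev v (toR r) < 0 := fun r hr => hvR _ (mem_hull hr)
  have hvL' : ∀ l ∈ L, 0 < ev v (toR l) := fun l hl =>
    (hLR l hl r0 hr0R).symm.pos_of_neg hvT (hvR' r0 hr0R)
  have hv0 : v.1 ^ 2 + v.2.1 ^ 2 ≠ 0 := by
    intro h
    have e1 : v.1 = 0 := by nlinarith [sq_nonneg v.1, sq_nonneg v.2.1]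
    have e2 : v.2.1 = 0 := by nlinarith [sq_nonneg v.1, sq_nonneg v.2.1]
    have h1 := hvR' r0 hr0R
    have h2 := hvL' l0 hl0L
    simp only [ev, e1, e2] at h1 h2
    linarith
  obtain ⟨u, huL, huT, hdet⟩ := perturb (fun l hl => hwL _ (mem_hull hl)) hwT hv0
  have huR : ∀ r ∈ R, 0 < ev u (toR r) := fun r hr =>
    (hLR l0 hl0L r hr).pos_of_neg huT (huL l0 hl0L)
  -- the lower common tangent
  obtain ⟨⟨l, r⟩, hlr, hmin⟩ := Finset.exists_min_image (L ×ˢ R)
    (fun x => (ev u (toR x.1) * ev v (toR x.2) - ev u (toR x.2) * ev v (toR x.1)) /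
      (ev u (toR x.2) - ev u (toR x.1))) ⟨(l0, r0), Finset.mem_product.mpr ⟨hl0L, hr0R⟩⟩
  obtain ⟨hl, hr⟩ := Finset.mem_product.mp hlr
  simp only at hl hr
  set α := ev v (toR l) - ev v (toR r) with hα
  set β := ev u (toR r) - ev u (toR l) with hβ
  have hα0 : 0 < α := by
    have := hvL' l hl
    have := hvR' r hr
    linarith
  have hβ0 : 0 < β := by
    have := huL l hl
    have := huR r hr
    linarith
  set K := ev u (toR r) * ev v (toR l) - ev v (toR r) * ev u (toR l) with hK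
  have hKl : α * ev u (toR l) + β * ev v (toR l) = K := by rw [hα, hβ, hK]; ring
  have hKr : α * ev u (toR r) + β * ev v (toR r) = K := by rw [hα, hβ, hK]; ring
  have hS : ∀ s ∈ S, s ∈ L ∨ s ∈ R := by
    intro s hs
    by_cases h : Meet T l0 s
    · exact Or.inr ((memR s).mpr ⟨hs, h⟩)
    · exact Or.inl ((memL s).mpr ⟨hs, h⟩)
  have hKs : ∀ s ∈ S, α * ev u (toR s) + β * ev v (toR s) ≤ K := by
    intro s hs
    rcases hS s hs with h | h
    · have h1 := hmin (s, r) (Finset.mem_product.mpr ⟨h, hr⟩)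
      simp only at h1
      have h2 := huL s h
      have h3 := huR r hr
      have h4 := huL l hl
      rw [div_le_div_iff₀ (by linarith) (by linarith)] at h1
      have h5 : (α * ev u (toR s) + β * ev v (toR s)) * ev u (toR r) ≤ K * ev u (toR r) := by
        have h6 : -K * (ev u (toR r) - ev u (toR s)) ≤
            (ev u (toR s) * ev v (toR r) - ev u (toR r) * ev v (toR s)) * β := by
          rw [hK, hβ]
          linarith
        linear_combination h6 + ev u (toR s) * hKr
      exact le_of_mul_le_mul_right h5 h3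
    · have h1 := hmin (l, s) (Finset.mem_product.mpr ⟨hl, h⟩)
      simp only at h1
      have h2 := huR s h
      have h3 := huR r hr
      have h4 := huL l hl
      rw [div_le_div_iff₀ (by linarith) (by linarith)] at h1
      have h5 : (α * ev u (toR s) + β * ev v (toR s)) * (- ev u (toR l)) ≤ K * (- ev u (toR l)) := by
        have h6 : -K * (ev u (toR s) - ev u (toR l)) ≤
            (ev u (toR l) * ev v (toR s) - ev u (toR s) * ev v (toR l)) * β := by
          rw [hK, hβ]
          linarith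
        linear_combination h6 - ev u (toR s) * hKl
      exact le_of_mul_le_mul_right h5 (by linarith)
  -- the primitive direction
  have hne : ¬ (r.1 - l.1 = 0 ∧ r.2 - l.2 = 0) := by
    rintro ⟨e1, e2⟩
    have : r = l := by ext <;> omega
    have h1 := huL l hl
    have h2 := huR r hr
    rw [this] at h2
    linarith
  have hgcd : 0 < Int.gcd (r.1 - l.1) (r.2 - l.2) := Int.gcd_pos_iff.mpr (by tauto)
  obtain ⟨v1, v2, hg1, hv1, hv2⟩ := Int.exists_gcd_one hgcd
  set d := Int.gcd (r.1 - l.1) (r.2 - l.2) with hd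
  have hcop : IsCoprime v1 v2 := Int.isCoprime_iff_gcd_eq_one.mpr hg1
  obtain ⟨a, b, hab⟩ := hcop
  have habR : (a : ℝ) * v1 + b * v2 = 1 := by exact_mod_cast hab
  set cx := - (α * u.1 + β * v.1) with hcx
  set cy := - (α * u.2.1 + β * v.2.1) with hcy
  have hv1R : (r.1 : ℝ) - l.1 = v1 * d := by exact_mod_cast hv1
  have hv2R : (r.2 : ℝ) - l.2 = v2 * d := by exact_mod_cast hv2
  have hdR : (0 : ℝ) < d := by exact_mod_cast hgcd
  have horth : cx * v1 + cy * v2 = 0 := by
    have h1 : (cx * v1 + cy * v2) * d = 0 := by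
      have h2 : cx * (r.1 - l.1) + cy * (r.2 - l.2) = 0 := by
        have h3 := hKl.trans hKr.symm
        simp only [ev, toR] at h3
        rw [hcx, hcy]
        linear_combination h3
      rw [hv1R, hv2R] at h2
      linear_combination h2
    rcases mul_eq_zero.mp h1 with h2 | h2
    · exact h2
    · exact absurd h2 hdR.ne'
  set μ := cy * a - cx * b with hμ
  have hμ1 : μ * v1 = cy := by
    rw [hμ]
    linear_combination cy * habR - b * horth
  have hμ2 : μ * (-v2) = cx := by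
    rw [hμ]
    linear_combination cx * habR - a * horth
  have hμ0 : μ ≠ 0 := by
    intro h
    rw [h] at hμ1 hμ2
    rw [zero_mul] at hμ1 hμ2
    apply hdet
    have h1 : α * (u.1 * v.2.1 - u.2.1 * v.1) = 0 := by
      have e1 : α * u.1 + β * v.1 = 0 := by linarith
      have e2 : α * u.2.1 + β * v.2.1 = 0 := by linarith
      linear_combination v.2.1 * e1 - v.1 * e2
    rcases mul_eq_zero.mp h1 with h2 | h2
    · exact absurd h2 hα0.ne'
    · exact h2
  -- the values of the tangent functional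
  have hcs : ∀ s ∈ S, cx * l.1 + cy * l.2 ≤ cx * s.1 + cy * s.2 := by
    intro s hs
    have h1 := hKs s hs
    rw [← hKl] at h1
    simp only [ev, toR] at h1
    rw [hcx, hcy]
    linarith
  -- the lattice points between `l` and `r`
  have hz : ∀ k : ℕ, k ≤ d → (l.1 + k * v1, l.2 + k * v2) ∈ S := by
    intro k hk
    have hkR : (k : ℝ) ≤ d := by exact_mod_cast hk
    have hin : toR (l.1 + k * v1, l.2 + k * v2) ∈ hull S := by
      have h1 := convex_convexHull ℝ (toR '' (S : Set (ℤ × ℤ)))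
        (mem_hull ((memL l).mp hl).1) (mem_hull ((memR r).mp hr).1)
        (show 0 ≤ ((d : ℝ) - k) / d from div_nonneg (by linarith) hdR.le)
        (show 0 ≤ (k : ℝ) / d from by positivity) (by field_simp; ring)
      have h2 : (((d : ℝ) - k) / d) • toR l + ((k : ℝ) / d) • toR r =
          toR (l.1 + k * v1, l.2 + k * v2) := by
        ext
        · simp only [toR, Prod.fst_add, Prod.smul_fst, smul_eq_mul]
          push_cast
          field_simp
          linear_combination k * hv1R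
        · simp only [toR, Prod.snd_add, Prod.smul_snd, smul_eq_mul]
          push_cast
          field_simp
          linear_combination k * hv2R
      rw [← h2]
      exact h1
    rcases lt_or_gt_of_ne hμ0 with h0 | h0
    · refine hE (v2, -v1) _ ⟨b, -a, by linear_combination hab⟩ hin ?_
      intro s hs
      have h1 := hcs s hs
      rw [← hμ1, ← hμ2] at h1
      have h2 : (-μ) * (v2 * l.1 - v1 * l.2) ≤ (-μ) * (v2 * s.1 - v1 * s.2) := by linarith
      have h3 := le_of_mul_le_mul_left h2 (by linarith)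
      have h4 : v2 * l.1 - v1 * l.2 ≤ v2 * s.1 - v1 * s.2 := by exact_mod_cast h3
      simp only
      linarith
    · refine hE (-v2, v1) _ ⟨-b, a, by linear_combination hab⟩ hin ?_
      intro s hs
      have h1 := hcs s hs
      rw [← hμ1, ← hμ2] at h1
      have h2 : μ * (-v2 * l.1 + v1 * l.2) ≤ μ * (-v2 * s.1 + v1 * s.2) := by linarith
      have h3 := le_of_mul_le_mul_left h2 h0
      have h4 : -v2 * l.1 + v1 * l.2 ≤ -v2 * s.1 + v1 * s.2 := by exact_mod_cast h3
      simp only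
      linarith
  -- consecutive points in different classes
  obtain ⟨k, hkd, hkL, hkR⟩ : ∃ k : ℕ, k + 1 ≤ d ∧ (l.1 + (k : ℤ) * v1, l.2 + (k : ℤ) * v2) ∈ L ∧
      (l.1 + ((k : ℤ) + 1) * v1, l.2 + ((k : ℤ) + 1) * v2) ∈ R := by
    have hex : ∃ k : ℕ, k ≤ d ∧ (l.1 + (k : ℤ) * v1, l.2 + (k : ℤ) * v2) ∈ R := by
      refine ⟨d, le_rfl, ?_⟩
      have : (l.1 + (d : ℤ) * v1, l.2 + (d : ℤ) * v2) = r := by
        ext
        · show l.1 + (d : ℤ) * v1 = r.1
          linear_combination -hv1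
        · show l.2 + (d : ℤ) * v2 = r.2
          linear_combination -hv2
      rw [this]
      exact hr
    have h1 := Nat.find_spec hex
    rcases Nat.eq_zero_or_pos (Nat.find hex) with h2 | h2
    · exfalso
      have h3 := h1.2
      rw [h2] at h3
      simp only [Nat.cast_zero, zero_mul, add_zero] at h3
      exact ((memL l).mp hl).2 ((memR l).mp h3).2
    · obtain ⟨k, hk⟩ : ∃ k, Nat.find hex = k + 1 := ⟨Nat.find hex - 1, by omega⟩
      rw [hk] at h1
      refine ⟨k, h1.1, ?_, by simpa using h1.2⟩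
      have h3 := Nat.find_min hex (m := k) (by omega)
      have h4 := hz k (by omega)
      rcases hS _ h4 with h5 | h5
      · exact h5
      · exact absurd ⟨by omega, h5⟩ h3
  have hkd' : k ≤ d := by omega
  have hlev : ∀ s ∈ S, μ * (-v2 * (l.1 + k * v1) + v1 * (l.2 + k * v2)) ≤
      μ * (-v2 * s.1 + v1 * s.2) := by
    intro s hs
    have h1 := hcs s hs
    rw [← hμ1, ← hμ2] at h1
    linarith
  rcases lt_or_gt_of_ne hμ0 with h0 | h0
  · -- `q` in `R`
    have hq' : ((l.1 + ((k : ℤ) + 1) * v1) + (-v1), (l.2 + ((k : ℤ) + 1) * v2) - v2) =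
        (l.1 + (k : ℤ) * v1, l.2 + (k : ℤ) * v2) := by
      ext
      · show (l.1 + ((k : ℤ) + 1) * v1) + (-v1) = l.1 + (k : ℤ) * v1
        ring
      · show (l.2 + ((k : ℤ) + 1) * v2) - v2 = l.2 + (k : ℤ) * v2
        ring
    refine edge (T := T) (S := S) hST hsec (c := (v2, -v1))
      (q := (l.1 + ((k : ℤ) + 1) * v1, l.2 + ((k : ℤ) + 1) * v2)) (X := v) (Y := u) (α := β)
      (β := α) (μ := -μ) ⟨b, -a, by linear_combination hab⟩ ((memR _).mp hkR).1 ?_ ?_ ?_ hvT huT
      (hvR' _ hkR) ?_ hβ0 hα0 (by linarith) ?_ ?_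
    · simp only
      rw [hq']
      exact ((memL _).mp hkL).1
    · intro s hs
      have h1 := hlev s hs
      have h2 : (-μ) * (v2 * (l.1 + k * v1) - v1 * (l.2 + k * v2)) ≤
          (-μ) * (v2 * s.1 - v1 * s.2) := by linarith
      have h3 := le_of_mul_le_mul_left h2 (by linarith)
      have h4 : v2 * (l.1 + k * v1) - v1 * (l.2 + k * v2) ≤ v2 * s.1 - v1 * s.2 := by
        exact_mod_cast h3
      simp only
      linarith
    · simp only
      rw [hq']
      exact (hLR _ hkL _ hkR).symm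
    · simp only
      rw [hq']
      exact huL _ hkL
    · simp only
      linarith
    · simp only
      push_cast
      linarith
  · have hq' : (l.1 + (k : ℤ) * v1 + v1, l.2 + (k : ℤ) * v2 - (-v2)) =
        (l.1 + ((k : ℤ) + 1) * v1, l.2 + ((k : ℤ) + 1) * v2) := by
      ext
      · show l.1 + (k : ℤ) * v1 + v1 = l.1 + ((k : ℤ) + 1) * v1
        ring
      · show l.2 + (k : ℤ) * v2 - (-v2) = l.2 + ((k : ℤ) + 1) * v2
        ring
    refine edge (T := T) (S := S) hST hsec (c := (-v2, v1))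
      (q := (l.1 + (k : ℤ) * v1, l.2 + (k : ℤ) * v2)) (X := u) (Y := v) (α := α)
      (β := β) (μ := μ) ⟨-b, a, by linear_combination hab⟩ ((memL _).mp hkL).1 ?_ ?_ ?_ huT hvT
      (huL _ hkL) ?_ hα0 hβ0 h0 ?_ ?_
    · simp only
      rw [hq']
      exact ((memR _).mp hkR).1
    · intro s hs
      have h1 := hlev s hs
      have h3 := le_of_mul_le_mul_left h1 h0
      have h4 : -v2 * (l.1 + k * v1) + v1 * (l.2 + k * v2) ≤ -v2 * s.1 + v1 * s.2 := by
        exact_mod_cast h3
      simp only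
      linarith
    · simp only
      rw [hq']
      exact hLR _ hkL _ hkR
    · simp only
      rw [hq']
      exact hvR' _ hkR
    · simp only
      push_cast
      linarith
    · simp only
      linarith

/-- a minimal crossing triple -/
theorem min_triple {S : Finset (ℤ × ℤ)} (hST : ∀ s ∈ S, toR s ∉ hull T) (n : ℕ) :
    ∀ p ∈ S, ∀ q ∈ S, ∀ r ∈ S, 0 < DD p q r → DD p q r ≤ n → Meet T p q → Meet T q r →
      Meet T p r → ∃ p ∈ S, ∃ q ∈ S, ∃ r ∈ S, 2 ≤ DD p q r ∧ Meet T p q ∧ Meet T q r ∧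
        Meet T p r ∧ ∀ z ∈ S, 0 ≤ DD z q r → 0 ≤ DD p z r → 0 ≤ DD p q z →
          z = p ∨ z = q ∨ z = r := by
  induction n with
  | zero =>
    intro p hp q hq r hr h1 h2
    exfalso
    simp only [Nat.cast_zero] at h2
    omega
  | succ n ih =>
    intro p hp q hq r hr h1 h2 h3 h4 h5
    by_cases hex : ∀ z ∈ S, 0 ≤ DD z q r → 0 ≤ DD p z r → 0 ≤ DD p q z →
          z = p ∨ z = q ∨ z = r
    · refine ⟨p, hp, q, hq, r, hr, ?_, h3, h4, h5, hex⟩
      by_contra hcon
      exact no_unimodular (by omega) h3 h4 h5 (hST p hp) (hST q hq) (hST r hr)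
    · push Not at hex
      obtain ⟨z, hz, ha, hb, hc, hzp, hzq, hzr⟩ := hex
      have hsum := DD_sum p q r z
      obtain ⟨e1, e2⟩ := baryc p q r z
      have cancel : ∀ x y : ℤ, DD p q r * x = DD p q r * y → x = y := fun x y h =>
        mul_left_cancel₀ h1.ne' h
      have ha' : DD z q r < DD p q r := by
        by_contra hcon
        have g2 : DD p z r = 0 := by omega
        have g3 : DD p q z = 0 := by omega
        have g1 : DD z q r = DD p q r := by omega
        rw [g1, g2, g3] at e1 e2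
        apply hzp
        ext
        · exact cancel _ _ (by linear_combination e1)
        · exact cancel _ _ (by linear_combination e2)
      have hb' : DD p z r < DD p q r := by
        by_contra hcon
        have g2 : DD z q r = 0 := by omega
        have g3 : DD p q z = 0 := by omega
        have g1 : DD p z r = DD p q r := by omega
        rw [g1, g2, g3] at e1 e2
        apply hzq
        ext
        · exact cancel _ _ (by linear_combination e1)
        · exact cancel _ _ (by linear_combination e2)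
      have hc' : DD p q z < DD p q r := by
        by_contra hcon
        have g2 : DD z q r = 0 := by omega
        have g3 : DD p z r = 0 := by omega
        have g1 : DD p q z = DD p q r := by omega
        rw [g1, g2, g3] at e1 e2
        apply hzr
        ext
        · exact cancel _ _ (by linear_combination e1)
        · exact cancel _ _ (by linear_combination e2)
      obtain ⟨p', q', r', hp', hq', hr', k1, k2, k3, k4, k5⟩ := triple_step h1 h3 h4 h5 (hST p hp)
        (hST q hq) (hST r hr) (hST z hz) ha hb hc ha' hb' hc'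
      have mp : p' ∈ S := by rcases hp' with h | h <;> rw [h] <;> assumption
      have mq : q' ∈ S := by rcases hq' with h | h <;> rw [h] <;> assumption
      have mr : r' ∈ S := by rcases hr' with h | h <;> rw [h] <;> assumption
      exact ih p' mp q' mq r' mr k1 (by push_cast at h2; omega) k3 k4 k5

theorem tri_hull {S : Finset (ℤ × ℤ)} {p q r z : ℤ × ℤ} (hp : p ∈ S) (hq : q ∈ S) (hr : r ∈ S)
    (hN : 0 < DD p q r) (ha : 0 ≤ DD z q r) (hb : 0 ≤ DD p z r) (hc : 0 ≤ DD p q z) :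
    toR z ∈ hull S := by
  have hNR : (0 : ℝ) < DD p q r := by exact_mod_cast hN
  have haR : (0 : ℝ) ≤ DD z q r := by exact_mod_cast ha
  have hbR : (0 : ℝ) ≤ DD p z r := by exact_mod_cast hb
  have hcR : (0 : ℝ) ≤ DD p q z := by exact_mod_cast hc
  have hs : (DD z q r : ℝ) + DD p z r + DD p q z = DD p q r := by
    exact_mod_cast DD_sum p q r z
  have hc3 := (convex_convexHull ℝ (toR '' (S : Set (ℤ × ℤ)))).sum_mem
    (t := Finset.univ) (w := ![(DD z q r : ℝ) / DD p q r, (DD p z r : ℝ) / DD p q r,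
      (DD p q z : ℝ) / DD p q r]) (z := ![toR p, toR q, toR r]) (by
      intro i _
      fin_cases i
      · exact div_nonneg haR hNR.le
      · exact div_nonneg hbR hNR.le
      · exact div_nonneg hcR hNR.le) (by
      simp only [Fin.sum_univ_three, Matrix.cons_val_zero, Matrix.cons_val_one,
        Matrix.cons_val_two, Matrix.head_cons, Matrix.tail_cons]
      rw [← add_div, ← add_div, hs, div_self hNR.ne']) (by
      intro i _
      fin_cases i
      · exact mem_hull hp
      · exact mem_hull hq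
      · exact mem_hull hr)
  simp only [Fin.sum_univ_three, Matrix.cons_val_zero, Matrix.cons_val_one,
    Matrix.cons_val_two, Matrix.head_cons, Matrix.tail_cons] at hc3
  have heq : ((DD z q r : ℝ) / DD p q r) • toR p + ((DD p z r : ℝ) / DD p q r) • toR q +
      ((DD p q z : ℝ) / DD p q r) • toR r = toR z := by
    obtain ⟨c1, c2⟩ := baryc p q r z
    have c1' : (DD p q r : ℝ) * z.1 = DD z q r * p.1 + DD p z r * q.1 + DD p q z * r.1 := by
      exact_mod_cast c1
    have c2' : (DD p q r : ℝ) * z.2 = DD z q r * p.2 + DD p z r * q.2 + DD p q z * r.2 := by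
      exact_mod_cast c2
    ext
    · simp only [toR, Prod.fst_add, Prod.smul_fst, smul_eq_mul]
      field_simp
      linear_combination -c1'
    · simp only [toR, Prod.snd_add, Prod.smul_snd, smul_eq_mul]
      field_simp
      linear_combination -c2'
  rw [← heq]
  exact hc3

end

/-- the planar lemma: if every lattice point of the hull of `S` is in `S`, the hulls meet, and the
sections hypothesis holds, then some point of `S` is in the hull of `T` -/
theorem planar (T S : Finset (ℤ × ℤ)) (hS : ∀ z, toR z ∈ hull S → z ∈ S)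
    (hmeet : (hull T ∩ hull S).Nonempty)
    (hsec : ∀ c q : ℤ × ℤ, IsCoprime c.1 c.2 → q ∈ S → (q.1 + c.2, q.2 - c.1) ∈ S →
      (∀ s ∈ S, c.1 * q.1 + c.2 * q.2 ≤ c.1 * s.1 + c.2 * s.2) →
      ∃ r : ℝ × ℝ, r ∈ convexHull ℝ (toR '' (T : Set (ℤ × ℤ))) ∧
        (r.1 + c.2, r.2 - c.1) ∈ convexHull ℝ (toR '' (T : Set (ℤ × ℤ))) ∧
        ∀ t ∈ T, (c.1 * t.1 + c.2 * t.2 : ℝ) ≤ c.1 * r.1 + c.2 * r.2 + 1) :
    ∃ z ∈ S, toR z ∈ hull T := by
  by_contra hcon
  push Not at hcon
  have hTS : ∀ t ∈ T, toR t ∉ hull S := fun t ht h => hcon t (hS t h) (mem_hull ht)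
  obtain ⟨p, hp, q, hq, r, hr, h0, h1, h2, h3⟩ := exists_triple T S hTS hcon
    (fun c z _ hz _ => hS z hz) hmeet hsec
  obtain ⟨p, hp, q, hq, r, hr, h0, h1, h2, h3, h4⟩ := min_triple hcon (DD p q r).toNat p hp q hq
    r hr h0 (by omega) h1 h2 h3
  obtain ⟨z, a1, a2, a3, b1, b2, b3⟩ := exists_inner h0
  have hzS := hS z (tri_hull hp hq hr (by omega) a1 a2 a3)
  rcases h4 z hzS a1 a2 a3 with h | h | h
  · rw [h] at b1
    exact lt_irrefl _ b1
  · rw [h] at b2
    exact lt_irrefl _ b2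
  · rw [h] at b3
    exact lt_irrefl _ b3

/-- no point of the triangle except the vertices and `0` gives small areas -/
theorem area_le_one {p q r : ℤ × ℤ} (hN : 0 < DD p q r)
    (hz : ∀ z, 0 ≤ DD z q r → 0 ≤ DD p z r → 0 ≤ DD p q z → z = p ∨ z = q ∨ z = r ∨ z = 0)
    (a2 : 0 ≤ DD p 0 r) (a3 : 0 ≤ DD p q 0) (b1 : DD 0 q r < DD p q r) :
    DD 0 q r ≤ 1 := by
  by_contra hcon
  obtain ⟨x, c1, c2, c3, d1, d2, d3⟩ := exists_inner (show 2 ≤ DD 0 q r by omega)
  have f2 : DD 0 q r * DD p x r = DD p 0 r * DD x q r + DD p q r * DD 0 x r := by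
    simp only [DD]; ring
  have f3 : DD 0 q r * DD p q x = DD p q 0 * DD x q r + DD p q r * DD 0 q x := by
    simp only [DD]; ring
  have g2 : 0 ≤ DD p x r := by
    have : 0 ≤ DD 0 q r * DD p x r := by
      rw [f2]
      exact add_nonneg (mul_nonneg a2 c1) (mul_nonneg hN.le c2)
    exact nonneg_of_mul_nonneg_right this (by omega)
  have g3 : 0 ≤ DD p q x := by
    have : 0 ≤ DD 0 q r * DD p q x := by
      rw [f3]
      exact add_nonneg (mul_nonneg a3 c1) (mul_nonneg hN.le c3)
    exact nonneg_of_mul_nonneg_right this (by omega)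
  rcases hz x c1 g2 g3 with h | h | h | h
  · rw [h] at d1
    omega
  · rw [h] at d2
    omega
  · rw [h] at d3
    omega
  · rw [h] at d1
    omega

/-- the minimal crossing triple when `0` may be missing from `S` -/
theorem core (T S : Finset (ℤ × ℤ)) (hTS : ∀ t ∈ T, toR t ∉ hull S)
    (hST : ∀ s ∈ S, toR s ∉ hull T) (hS : ∀ z, toR z ∈ hull S → z ∈ S ∨ z = 0)
    (hE : ∀ c : ℤ × ℤ, IsCoprime c.1 c.2 → ∃ s ∈ S, c.1 * s.1 + c.2 * s.2 < 0)
    (hmeet : (hull T ∩ hull S).Nonempty)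
    (hsec : ∀ c q : ℤ × ℤ, IsCoprime c.1 c.2 → q ∈ S → (q.1 + c.2, q.2 - c.1) ∈ S →
      (∀ s ∈ S, c.1 * q.1 + c.2 * q.2 ≤ c.1 * s.1 + c.2 * s.2) →
      ∃ r : ℝ × ℝ, r ∈ convexHull ℝ (toR '' (T : Set (ℤ × ℤ))) ∧
        (r.1 + c.2, r.2 - c.1) ∈ convexHull ℝ (toR '' (T : Set (ℤ × ℤ))) ∧
        ∀ t ∈ T, (c.1 * t.1 + c.2 * t.2 : ℝ) ≤ c.1 * r.1 + c.2 * r.2 + 1) :
    ∃ p ∈ S, ∃ q ∈ S, ∃ r ∈ S, Meet T p q ∧ Meet T q r ∧ Meet T p r ∧
      p.1 * q.2 - p.2 * q.1 = 1 ∧ (p + q + r = 0 ∨ q + r = 0) := by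
  obtain ⟨p, hp, q, hq, r, hr, h0, h1, h2, h3⟩ := exists_triple T S hTS hST
    (fun c z hc hz hmin => by
      rcases hS z hz with h | h
      · exact h
      · exfalso
        obtain ⟨s, hs, hneg⟩ := hE c hc
        have := hmin s hs
        rw [h] at this
        simp only [Prod.fst_zero, Prod.snd_zero, mul_zero, add_zero] at this
        omega) hmeet hsec
  obtain ⟨p, hp, q, hq, r, hr, h0, h1, h2, h3, h4⟩ := min_triple hST (DD p q r).toNat p hp q hq
    r hr h0 (by omega) h1 h2 h3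
  have hN : 0 < DD p q r := by omega
  have hz : ∀ z, 0 ≤ DD z q r → 0 ≤ DD p z r → 0 ≤ DD p q z → z = p ∨ z = q ∨ z = r ∨ z = 0 := by
    intro z a1 a2 a3
    rcases hS z (tri_hull hp hq hr hN a1 a2 a3) with h | h
    · rcases h4 z h a1 a2 a3 with h | h | h
      · exact Or.inl h
      · exact Or.inr (Or.inl h)
      · exact Or.inr (Or.inr (Or.inl h))
    · exact Or.inr (Or.inr (Or.inr h))
  obtain ⟨z, a1, a2, a3, b1, b2, b3⟩ := exists_inner h0
  have hz0 : z = 0 := by
    rcases hz z a1 a2 a3 with h | h | h | h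
    · rw [h] at b1
      exact absurd b1 (lt_irrefl _)
    · rw [h] at b2
      exact absurd b2 (lt_irrefl _)
    · rw [h] at b3
      exact absurd b3 (lt_irrefl _)
    · exact h
  subst hz0
  have e1 := area_le_one hN hz a2 a3 b1
  have e2 : DD p 0 r ≤ 1 := by
    have := area_le_one (p := q) (q := r) (r := p) (by rw [DD_rot]; exact hN) (by
      intro z g1 g2 g3
      rw [DD_rot p z r] at g1
      rw [DD_rot p q z] at g2
      rw [DD_rot z q r] at g3
      rcases hz z g3 g1 g2 with h | h | h | h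
      · exact Or.inr (Or.inr (Or.inl h))
      · exact Or.inl h
      · exact Or.inr (Or.inl h)
      · exact Or.inr (Or.inr (Or.inr h))) (by rw [DD_rot p q 0]; exact a3)
      (by rw [DD_rot 0 q r]; exact a1) (by rw [DD_rot p 0 r, DD_rot p q r]; exact b2)
    rw [DD_rot p 0 r] at this
    exact this
  have e3 : DD p q 0 ≤ 1 := by
    have := area_le_one (p := r) (q := p) (r := q) (by rw [← DD_rot r p q]; exact hN) (by
      intro z g1 g2 g3
      rw [← DD_rot z p q] at g1
      rw [← DD_rot r z q] at g2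
      rw [← DD_rot r p z] at g3
      rcases hz z g2 g3 g1 with h | h | h | h
      · exact Or.inr (Or.inl h)
      · exact Or.inr (Or.inr (Or.inl h))
      · exact Or.inl h
      · exact Or.inr (Or.inr (Or.inr h))) (by rw [← DD_rot r 0 q]; exact a1)
      (by rw [← DD_rot r p 0]; exact a2) (by rw [← DD_rot 0 p q, ← DD_rot r p q]; exact b3)
    rw [← DD_rot 0 p q] at this
    exact this
  have hsum := DD_sum p q r 0
  obtain ⟨s1, s2⟩ := baryc p q r 0
  simp only [Prod.fst_zero, Prod.snd_zero, mul_zero] at s1 s2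
  have dpq : DD p q 0 = p.1 * q.2 - p.2 * q.1 := by
    simp only [DD, Prod.fst_zero, Prod.snd_zero]; ring
  have dqr : DD 0 q r = q.1 * r.2 - q.2 * r.1 := by
    simp only [DD, Prod.fst_zero, Prod.snd_zero]; ring
  have drp : DD p 0 r = r.1 * p.2 - r.2 * p.1 := by
    simp only [DD, Prod.fst_zero, Prod.snd_zero]; ring
  by_cases c1 : DD 0 q r = 0
  · have c2 : DD p 0 r = 1 := by omega
    have c3 : DD p q 0 = 1 := by omega
    rw [c1, c2, c3] at s1 s2
    refine ⟨p, hp, q, hq, r, hr, h1, h2, h3, by omega, Or.inr ?_⟩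
    ext
    · show q.1 + r.1 = 0
      omega
    · show q.2 + r.2 = 0
      omega
  by_cases c2 : DD p 0 r = 0
  · have c1' : DD 0 q r = 1 := by omega
    have c3 : DD p q 0 = 1 := by omega
    rw [c1', c2, c3] at s1 s2
    refine ⟨q, hq, r, hr, p, hp, h2, h3.symm, h1.symm, by omega, Or.inr ?_⟩
    ext
    · show r.1 + p.1 = 0
      omega
    · show r.2 + p.2 = 0
      omega
  by_cases c3 : DD p q 0 = 0
  · have c1' : DD 0 q r = 1 := by omega
    have c2' : DD p 0 r = 1 := by omega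
    rw [c1', c2', c3] at s1 s2
    refine ⟨r, hr, p, hp, q, hq, h3.symm, h1, h2.symm, by omega, Or.inr ?_⟩
    ext
    · show p.1 + q.1 = 0
      omega
    · show p.2 + q.2 = 0
      omega
  have c1' : DD 0 q r = 1 := by omega
  have c2' : DD p 0 r = 1 := by omega
  have c3' : DD p q 0 = 1 := by omega
  rw [c1', c2', c3'] at s1 s2
  refine ⟨p, hp, q, hq, r, hr, h1, h2, h3, by omega, Or.inl ?_⟩
  ext
  · show p.1 + q.1 + r.1 = 0
    omega
  · show p.2 + q.2 + r.2 = 0
    omega

end Pool.Agent.Helper90.NE
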